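import Pool.Agent.Lib.MP_430a41_an.Orbit

set_option autoImplicit false

open Set Filter Topology
open scoped ContDiff Manifold

/-! The example for Q1. -/

namespace Pool.Agent.Lib.MP_430a41_an

/-- The exponents. -/
def nn : ℕ → ℕ
  | 0 => 0
  | k + 1 => (nn k + k + 6) * (k + 1) + k + 1

lemma nn_succ (k : ℕ) : nn (k + 1) = (nn k + k + 6) * (k + 1) + k + 1 := rfl

lemma nn_succ_ge (k : ℕ) : nn k + 2 * k + 7 ≤ nn (k + 1) := by
  rw [nn_succ]; nlinarith [Nat.zero_le (nn k * k), Nat.zero_le (k * k)]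

lemma nn_strictMono : StrictMono nn :=
  strictMono_nat_of_lt_succ fun k => by have := nn_succ_ge k; omega

/-- The parameters of the example for Q1. -/
noncomputable def par1 : Par where
  y k := (1 / 3) ^ (nn k + k + 3)
  ρ k := (1 / 3) ^ (nn k + k + 6)
  ε k := (1 / 3) ^ nn k
  y_pos k := by positivity
  y_succ k := by
    have h1 : (1 / 3 : ℝ) ^ (nn (k + 1) + (k + 1) + 3) ≤ (1 / 3) ^ (nn k + k + 3 + 3) :=
      pow_le_pow_of_le_one (by norm_num) (by norm_num) (by have := nn_succ_ge k; omega)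
    rw [pow_add _ (nn k + k + 3) 3] at h1
    refine h1.trans (le_of_eq ?_)
    norm_num
    ring
  ρ_eq k := by
    rw [show nn k + k + 6 = nn k + k + 3 + 3 by ring, pow_add _ (nn k + k + 3) 3]
    norm_num
    ring
  ε_pos k := by positivity

lemma par1_y_succ (k : ℕ) : par1.y (k + 1) ≤ (1 / 3) ^ k * par1.y k := by
  show (1 / 3 : ℝ) ^ (nn (k + 1) + (k + 1) + 3) ≤ (1 / 3) ^ k * (1 / 3) ^ (nn k + k + 3)
  rw [← pow_add]
  exact pow_le_pow_of_le_one (by norm_num) (by norm_num) (by have := nn_succ_ge k; omega)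

lemma quarter_not_mem {D : Data} (hD : D.toPar = par1) : (1 / 4 : ℝ) ∉ D.G := by
  rintro ⟨K, hK⟩
  have h1 : Tendsto (fun k : ℕ => K * (1 / 3 : ℝ) ^ (k + 3)) atTop (𝓝 (K * 0)) :=
    ((tendsto_add_atTop_iff_nat 3).2
      (tendsto_pow_atTop_nhds_zero_of_lt_one (by norm_num) (by norm_num))).const_mul K
  rw [mul_zero] at h1
  have h2 : ∀ᶠ k in atTop, K * (1 / 3 : ℝ) ^ (k + 3) < 1 / 4 :=
    h1 (Iio_mem_nhds (by norm_num))
  obtain ⟨k, ⟨m, hm⟩, hk⟩ := (hK.and h2).exists
  rw [hD] at hm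
  have hm' : |1 / 4 - m * ((1 / 3 : ℝ) ^ nn k / 2)| ≤ K * (1 / 3) ^ (nn k + k + 3) := hm
  have h3 : (1 : ℤ) ≤ |3 ^ nn k - 2 * m| := by
    apply Int.one_le_abs
    intro h0
    have h4 : (3 : ℤ) ^ nn k = 2 * m := by linarith
    have h5 : Odd ((3 : ℤ) ^ nn k) := Odd.pow (by decide)
    rw [h4] at h5
    exact (Int.not_even_iff_odd.2 h5) (even_two_mul m)
  have h3' : (1 : ℝ) ≤ |(3 : ℝ) ^ nn k - 2 * (m : ℝ)| := by exact_mod_cast h3
  have h6 : (0 : ℝ) < (1 / 3) ^ nn k := by positivity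
  have h7 : (1 / 3 : ℝ) ^ nn k * 3 ^ nn k = 1 := by rw [← mul_pow]; norm_num
  have h8 : 1 / 4 - m * ((1 / 3 : ℝ) ^ nn k / 2) = (3 ^ nn k - 2 * m) * ((1 / 3 : ℝ) ^ nn k / 4) := by
    linear_combination (-1 / 4) * h7
  rw [h8, abs_mul, abs_of_pos (by positivity : (0 : ℝ) < (1 / 3 : ℝ) ^ nn k / 4)] at hm'
  have h9 : (1 / 3 : ℝ) ^ (nn k + k + 3) = (1 / 3) ^ nn k * (1 / 3) ^ (k + 3) := by
    rw [← pow_add]; congr 1
  rw [h9] at hm'
  have h10 : (1 / 3 : ℝ) ^ nn k / 4 ≤ |3 ^ nn k - 2 * (m : ℝ)| * ((1 / 3 : ℝ) ^ nn k / 4) := by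
    nlinarith
  nlinarith

open Classical in
/-- The code of a `0`-`1` sequence. -/
noncomputable def code (a : ℕ → Bool) (n : ℕ) : Bool :=
  if ∃ k, nn k = n ∧ a k = true then true else false

lemma code_nn (a : ℕ → Bool) (k : ℕ) : code a (nn k) = a k := by
  unfold code
  by_cases h : a k = true
  · rw [h, if_pos]
    exact ⟨k, rfl, h⟩
  · rw [Bool.not_eq_true] at h
    rw [h, if_neg]
    rintro ⟨j, hj, hj'⟩
    rw [nn_strictMono.injective hj, h] at hj'
    exact Bool.false_ne_true hj'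

lemma code_injective : Function.Injective code := by
  intro a b h
  ext k
  rw [← code_nn a, ← code_nn b, h]

/-- The translation numbers. -/
noncomputable def tt (a : ℕ → Bool) : ℝ := Cardinal.cantorFunction (1 / 3) (code a)

lemma tt_injective : Function.Injective tt :=
  (Cardinal.cantorFunction_injective (by norm_num) (by norm_num)).comp code_injective

lemma not_countable_range_tt : ¬ (Set.range tt).Countable := by
  intro h
  have h1 : Countable (ℕ → Bool) := by
    have : Countable (Set.range tt) := h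
    exact (Set.rangeFactorization_injective.2 tt_injective).countable
  obtain ⟨f, hf⟩ := exists_surjective_nat (ℕ → Bool)
  obtain ⟨k, hk⟩ := hf fun n => !(f n n)
  have := congrFun hk k
  simp at this

lemma tt_approx (a : ℕ → Bool) (k : ℕ) :
    ∃ m : ℤ, |m * (1 / 3 : ℝ) ^ nn k - tt a| ≤ 2 * (1 / 3) ^ nn (k + 1) := by
  set M := nn (k + 1) with hM
  set f := Cardinal.cantorFunctionAux (1 / 3) (code a) with hf
  have hs : Summable f := Cardinal.summable_cantor_function _ (by norm_num) (by norm_num)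
  have hfn : ∀ n, f n = if code a n then (1 / 3 : ℝ) ^ n else 0 := by
    intro n
    simp only [hf, Cardinal.cantorFunctionAux]
    cases code a n <;> simp
  have hf0 : ∀ n, 0 ≤ f n := by
    intro n; rw [hfn]; split_ifs <;> positivity
  have hf1 : ∀ n, f n ≤ (1 / 3 : ℝ) ^ n := by
    intro n; rw [hfn]; split_ifs
    · exact le_rfl
    · positivity
  have hsplit := hs.sum_add_tsum_nat_add M
  have ht : tt a = ∑' n, f n := rfl
  refine ⟨∑ n ∈ Finset.range M, if code a n then (3 : ℤ) ^ (nn k - n) else 0, ?_⟩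
  have h1 : ((∑ n ∈ Finset.range M, if code a n then (3 : ℤ) ^ (nn k - n) else 0 : ℤ) : ℝ)
      * (1 / 3 : ℝ) ^ nn k = ∑ n ∈ Finset.range M, f n := by
    push_cast
    rw [Finset.sum_mul]
    refine Finset.sum_congr rfl fun n hn => ?_
    rw [hfn]
    split_ifs with hc
    · have hc' : ∃ k, nn k = n ∧ a k = true := by
        by_contra hcon
        unfold code at hc
        rw [if_neg hcon] at hc
        exact Bool.false_ne_true hc
      obtain ⟨j, hj, -⟩ := hc'
      have h2 : n < nn (k + 1) := Finset.mem_range.1 hn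
      rw [← hj] at h2
      have h3 : j < k + 1 := nn_strictMono.lt_iff_lt.1 h2
      have h4 : n ≤ nn k := by rw [← hj]; exact nn_strictMono.monotone (by omega)
      have h5 : (1 / 3 : ℝ) ^ nn k = (1 / 3) ^ (nn k - n) * (1 / 3) ^ n := by
        rw [← pow_add]; congr 1; omega
      rw [h5, ← mul_assoc, ← mul_pow]
      norm_num
    · simp
  rw [h1, ht, ← hsplit]
  have h6 : ∑ n ∈ Finset.range M, f n - (∑ n ∈ Finset.range M, f n + ∑' n, f (n + M))
      = -∑' n, f (n + M) := by ring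
  rw [h6, abs_neg, abs_of_nonneg (tsum_nonneg fun n => hf0 _)]
  have h7 : HasSum (fun n : ℕ => (1 / 3 : ℝ) ^ n * (1 / 3) ^ M) ((1 - 1 / 3)⁻¹ * (1 / 3) ^ M) :=
    (hasSum_geometric_of_lt_one (by norm_num) (by norm_num)).mul_right _
  have h8 : ∑' n, f (n + M) ≤ (1 - 1 / 3)⁻¹ * (1 / 3) ^ M := by
    rw [← h7.tsum_eq]
    refine Summable.tsum_le_tsum (fun n => ?_) ((summable_nat_add_iff M).2 hs) h7.summable
    rw [← pow_add]
    exact hf1 _
  refine h8.trans ?_
  have h9 : (0 : ℝ) < (1 / 3) ^ M := by positivity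
  have h10 : (1 - 1 / 3 : ℝ)⁻¹ ≤ 2 := by norm_num
  gcongr

/-- Translations by the numbers `tt a` are in the orbit. -/
lemma tt_mem_orbit {D : Data} (hD : D.toPar = par1) (a : ℕ → Bool) (s : ℝ) :
    (0 : E 3) + tt a • (Pi.single 0 1 : E 3) + s • (Pi.single 1 1 : E 3) ∈ orbit D.S 0 := by
  choose m hm using tt_approx a
  refine D.mem_orbit_of_approx m (fun k => 2 * (1 / 3) ^ nn (k + 1)) ?_ ?_ s rfl
  · intro k
    rw [hD]
    exact hm k
  · refine summable_aux D.ρ_pos ?_ (fun k => by positivity) ?_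
    · intro k
      rw [hD]
      exact pow_le_one₀ (by norm_num) (by norm_num)
    · intro k
      rw [hD]
      show 2 * (1 / 3 : ℝ) ^ nn (k + 1) ≤ ((1 / 3) ^ (nn k + k + 6)) ^ (k + 1) * (1 / 2) ^ k
      rw [nn_succ, add_assoc, pow_add, pow_mul]
      have h1 : (1 / 3 : ℝ) ^ (k + 1) ≤ (1 / 2) ^ (k + 1) := by
        gcongr; norm_num
      have h2 : (0 : ℝ) < ((1 / 3) ^ (nn k + k + 6)) ^ (k + 1) := by positivity
      rw [pow_succ (1 / 2 : ℝ) k] at h1
      nlinarith

/-- The set of `x`-coordinates of points in the orbit is contained in `G`. -/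
lemma coordinate_mem_G {D : Data} (hD : D.toPar = par1) {q : E 3} (hq : q ∈ orbit D.S 0) :
    q 2 = 0 ∧ q 0 ∈ D.G := by
  refine D.orbit_zero_subset (r := fun k => (1 / 3) ^ k)
    (tendsto_pow_atTop_nhds_zero_of_lt_one (by norm_num) (by norm_num)) ?_ hq
  intro k
  rw [hD]
  exact par1_y_succ k

/-- On connected subsets of the orbit the coordinate `0` is constant. -/
lemma coordinate_const {D : Data} (hD : D.toPar = par1) {B : Set (E 3)} (hB : B ⊆ orbit D.S 0)
    (hc : IsPreconnected B) {p q : E 3} (hp : p ∈ B) (hq : q ∈ B) : p 0 = q 0 := by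
  by_contra hne
  have h1 : IsPreconnected ((fun x : E 3 => x 0) '' B) :=
    hc.image _ (continuous_apply 0).continuousOn
  have h2 : (fun x : E 3 => x 0) '' B ⊆ D.G := by
    rintro _ ⟨x, hx, rfl⟩
    exact (coordinate_mem_G hD (hB hx)).2
  have hord := h1.ordConnected
  rcases lt_or_gt_of_ne hne with hlt | hlt
  · exact D.G_no_interval (by norm_num) (quarter_not_mem hD) hlt
      ((hord.out (mem_image_of_mem _ hp) (mem_image_of_mem _ hq)).trans h2)
  · exact D.G_no_interval (by norm_num) (quarter_not_mem hD) hlt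
      ((hord.out (mem_image_of_mem _ hq) (mem_image_of_mem _ hp)).trans h2)

/-- The orbit is not a continuous image of a second countable locally connected space. -/
lemma range_ne_orbit {D : Data} (hD : D.toPar = par1) {N : Type} [TopologicalSpace N]
    [SecondCountableTopology N] [LocallyConnectedSpace N] (f : N → E 3) (hf : Continuous f) :
    Set.range f ≠ orbit D.S 0 := by
  intro hr
  obtain ⟨s, hs, hsd⟩ := TopologicalSpace.exists_countable_dense N
  apply not_countable_range_tt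
  refine (hs.image fun x => f x 0).mono ?_
  rintro _ ⟨a, rfl⟩
  have h1 := tt_mem_orbit hD a 0
  rw [← hr] at h1
  obtain ⟨x, hx⟩ := h1
  have hopen : IsOpen (connectedComponent x) := isOpen_connectedComponent
  obtain ⟨z, hz1, hz2⟩ := hsd.inter_open_nonempty _ hopen ⟨x, mem_connectedComponent⟩
  refine ⟨z, hz2, ?_⟩
  have h2 : f z 0 = f x 0 := by
    refine coordinate_const hD (B := f '' connectedComponent x) ?_ ?_
      (mem_image_of_mem _ hz1) (mem_image_of_mem _ mem_connectedComponent)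
    · rw [← hr]; exact image_subset_range _ _
    · exact isPreconnected_connectedComponent.image _ hf.continuousOn
  show f z 0 = tt a
  rw [h2, hx]
  simp

/-- The example for Q1. -/
theorem exists_orbit_not_submanifold : ∃ S : CRStructure 3,
    (∃ c : E 3 → ℝ, ContDiff ℝ ∞ c ∧ (∀ p, 0 ≤ c p) ∧
      ∀ p, S.H p = Submodule.span ℂ {![1, Complex.I, Complex.I * (c p : ℂ)]}) ∧
    (∀ (N : Type) [TopologicalSpace N] [SecondCountableTopology N] [LocallyConnectedSpace N]
      (f : N → E 3), Continuous f → Set.range f ≠ orbit S 0) ∧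
    IsEmpty (ImmersedSubmanifold (orbit S 0)) := by
  obtain ⟨D, hD⟩ := exists_data par1
  refine ⟨D.S, ⟨D.c, D.c_smooth, D.c_nonneg, fun p => rfl⟩,
    fun N _ _ _ f hf => range_ne_orbit hD f hf, ⟨fun σ => ?_⟩⟩
  have : LocallyConnectedSpace σ.N :=
    ChartedSpace.locallyConnectedSpace (E σ.d) σ.N
  exact range_ne_orbit hD σ.ι (ContMDiff.continuous σ.smooth) σ.range_eq

end Pool.Agent.Lib.MP_430a41_an
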