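import Pool.Agent.Lib.MP_430a41_an.Strips

set_option autoImplicit false

open Set Filter Topology
open scoped ContDiff

/-! Generalities on CR diffeomorphisms, and the CR structure of the construction. -/

namespace Pool.Agent.Lib.MP_430a41_an

lemma jac_eq {n : ℕ} (h : E n → E n) (x : E n) :
    jac h x = (LinearMap.toMatrix' (fderiv ℝ h x : E n →ₗ[ℝ] E n)).map (algebraMap ℝ ℂ) := by
  ext i j
  simp [jac, LinearMap.toMatrix'_apply]

lemma jac_comp {n : ℕ} {g h : E n → E n} {x : E n} (hg : DifferentiableAt ℝ g (h x))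
    (hh : DifferentiableAt ℝ h x) : jac g (h x) * jac h x = jac (g ∘ h) x := by
  rw [jac_eq, jac_eq, jac_eq, fderiv_comp x hg hh, ← Matrix.map_mul, ← LinearMap.toMatrix'_comp]
  rfl

lemma jac_id {n : ℕ} (x : E n) : jac (fun y => y) x = 1 := by
  rw [jac_eq, fderiv_fun_id]
  have : ((ContinuousLinearMap.id ℝ (E n) : E n →L[ℝ] E n) : E n →ₗ[ℝ] E n) = LinearMap.id := rfl
  rw [this, LinearMap.toMatrix'_id]
  simp

lemma jac_congr {n : ℕ} {g h : E n → E n} {x : E n} (e : g =ᶠ[𝓝 x] h) : jac g x = jac h x := by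
  rw [jac_eq, jac_eq, e.fderiv_eq]

lemma IsCRDiffeo.contDiffAt {n : ℕ} {S : CRStructure n} {h : OpenPartialHomeomorph (E n) (E n)}
    (hh : IsCRDiffeo S h) {x : E n} (hx : x ∈ h.source) : ContDiffAt ℝ ∞ h x :=
  hh.1.contDiffAt (h.open_source.mem_nhds hx)

lemma IsCRDiffeo.contDiffAt_symm {n : ℕ} {S : CRStructure n}
    {h : OpenPartialHomeomorph (E n) (E n)}
    (hh : IsCRDiffeo S h) {y : E n} (hy : y ∈ h.target) : ContDiffAt ℝ ∞ h.symm y :=
  hh.2.1.contDiffAt (h.open_target.mem_nhds hy)

lemma IsCRDiffeo.symm {n : ℕ} {S : CRStructure n} {h : OpenPartialHomeomorph (E n) (E n)}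
    (hh : IsCRDiffeo S h) : IsCRDiffeo S h.symm := by
  refine ⟨hh.2.1, by simpa using hh.1, fun y hy => ?_⟩
  have hy' : y ∈ h.target := hy
  set x := h.symm y with hx
  have hxs : x ∈ h.source := h.map_target hy'
  have hxy : h x = y := h.right_inv hy'
  have h1 : jac h.symm (h x) * jac h x = 1 := by
    rw [jac_comp, ← jac_id x]
    · refine jac_congr ?_
      filter_upwards [h.open_source.mem_nhds hxs] with z hz
      exact h.left_inv hz
    · rw [hxy]; exact (hh.contDiffAt_symm hy').differentiableAt (by simp)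
    · exact (hh.contDiffAt hxs).differentiableAt (by simp)
  rw [← hxy, ← hh.2.2 x hxs, ← Submodule.map_comp, ← Matrix.mulVecLin_mul, h1,
    Matrix.mulVecLin_one, Submodule.map_id]

namespace Data

variable (D : Data)

/-- The complex vector field `∂₀ + i (∂₁ + c ∂₂)`. -/
noncomputable def L (p : E 3) : CT 3 := ![1, Complex.I, Complex.I * (D.c p : ℂ)]

lemma contDiff_L : ContDiff ℝ ∞ D.L := by
  refine contDiff_pi.2 fun i => ?_
  have h : ContDiff ℝ ∞ (fun p => (D.c p : ℂ)) := Complex.ofRealCLM.contDiff.comp D.c_smooth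
  fin_cases i
  · exact contDiff_const
  · exact contDiff_const
  · exact contDiff_const.mul h

lemma L_ne_zero (p : E 3) : D.L p ≠ 0 := by
  intro h
  have := congrFun h 0
  simp [L] at this

lemma mem_span_L_iff (p : E 3) (v : CT 3) :
    v ∈ Submodule.span ℂ {D.L p} ↔ v 1 = Complex.I * v 0 ∧ v 2 = Complex.I * (D.c p : ℂ) * v 0 := by
  rw [Submodule.mem_span_singleton]
  constructor
  · rintro ⟨a, rfl⟩
    simp only [L, Pi.smul_apply, smul_eq_mul, Matrix.cons_val_zero, Matrix.cons_val_one,
      Matrix.cons_val]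
    constructor <;> ring
  · rintro ⟨h1, h2⟩
    refine ⟨v 0, ?_⟩
    ext i
    fin_cases i
    · simp [L]
    · simp [L, h1, mul_comm]
    · simp only [L, Pi.smul_apply, smul_eq_mul, Fin.reduceFinMk, Matrix.cons_val]
      rw [h2]; ring

lemma fderiv_comp_apply' {V : E 3 → CT 3} {q : E 3} (hV : DifferentiableAt ℝ V q) (v : E 3)
    (i : Fin 3) : fderiv ℝ (fun p => V p i) q v = fderiv ℝ V q v i := by
  have := ((ContinuousLinearMap.proj (R := ℝ) (φ := fun _ : Fin 3 => ℂ) i).hasFDerivAt.comp q
    hV.hasFDerivAt).fderiv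
  have h2 : fderiv ℝ (fun p => V p i) q = _ := this
  rw [h2]; rfl

/-- The CR structure of the construction. -/
noncomputable def S : CRStructure 3 where
  H p := Submodule.span ℂ {D.L p}
  rank := 1
  frame p := by
    refine ⟨univ, isOpen_univ, mem_univ _, fun _ => D.L, fun _ => D.contDiff_L.contDiffOn,
      fun q _ => ⟨?_, ?_⟩⟩
    · exact LinearIndependent.of_subsingleton 0 (D.L_ne_zero q)
    · rw [Set.range_const]
  inf_conj p v hv hv' := by
    rw [mem_span_L_iff] at hv hv'
    obtain ⟨h1, h2⟩ := hv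
    obtain ⟨h3, h4⟩ := hv'
    rw [h1, map_mul, Complex.conj_I] at h3
    have h5 : v 0 = 0 := by
      have : Complex.I * (starRingEnd ℂ) (v 0) = 0 := by linear_combination (-1 / 2) * h3
      simpa using this
    ext i
    fin_cases i
    · exact h5
    · simpa [h5] using h1
    · simpa [h5] using h2
  involutive U hU V W hV hW hVH hWH q hq := by
    have hUq : U ∈ 𝓝 q := hU.mem_nhds hq
    have hVd : DifferentiableAt ℝ V q := (hV.contDiffAt hUq).differentiableAt (by simp)
    have hWd : DifferentiableAt ℝ W q := (hW.contDiffAt hUq).differentiableAt (by simp)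
    have hcd : DifferentiableAt ℝ (fun p => (D.c p : ℂ)) q :=
      ((Complex.ofRealCLM.contDiff.comp D.c_smooth).differentiable (by simp)) q
    simp only [mem_span_L_iff] at hVH hWH ⊢
    -- derivatives of the relations
    have key : ∀ T : E 3 → CT 3, DifferentiableAt ℝ T q →
        (∀ p ∈ U, T p 1 = Complex.I * T p 0 ∧ T p 2 = Complex.I * (D.c p : ℂ) * T p 0) →
        ∀ v : E 3, fderiv ℝ T q v 1 = Complex.I * fderiv ℝ T q v 0 ∧
          fderiv ℝ T q v 2 = Complex.I * (fderiv ℝ (fun p => (D.c p : ℂ)) q v * T q 0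
            + (D.c q : ℂ) * fderiv ℝ T q v 0) := by
      intro T hT hrel v
      have hT0 : DifferentiableAt ℝ (fun p => T p 0) q :=
        (ContinuousLinearMap.proj (R := ℝ) (φ := fun _ : Fin 3 => ℂ) 0).differentiableAt.comp q hT
      constructor
      · rw [← fderiv_comp_apply' hT, ← fderiv_comp_apply' hT]
        have : (fun p => T p 1) =ᶠ[𝓝 q] fun p => Complex.I * T p 0 := by
          filter_upwards [hUq] with p hp using (hrel p hp).1
        rw [this.fderiv_eq, fderiv_const_mul hT0]
        rfl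
      · rw [← fderiv_comp_apply' hT, ← fderiv_comp_apply' hT]
        have : (fun p => T p 2) =ᶠ[𝓝 q] fun p => Complex.I * ((D.c p : ℂ) * T p 0) := by
          filter_upwards [hUq] with p hp
          rw [(hrel p hp).2]; ring
        rw [this.fderiv_eq, fderiv_const_mul (hcd.fun_mul hT0)]
        have h2 : fderiv ℝ (fun p => (D.c p : ℂ) * T p 0) q
            = (D.c q : ℂ) • fderiv ℝ (fun p => T p 0) q + (T q 0) • fderiv ℝ (fun p => (D.c p : ℂ)) q
            := fderiv_fun_mul hcd hT0
        rw [h2]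
        simp only [smul_apply, _root_.add_apply, smul_eq_mul]
        ring
    have kV := key V hVd hVH
    have kW := key W hWd hWH
    have hc1 : fderiv ℝ (fun p => (D.c p : ℂ)) q (Pi.single 1 1) = 0 := by
      have h1 : fderiv ℝ (fun p => (D.c p : ℂ)) q = Complex.ofRealCLM.comp (fderiv ℝ D.c q) :=
        (Complex.ofRealCLM.hasFDerivAt.comp q
          ((D.c_smooth.differentiable (by simp)) q).hasFDerivAt).fderiv
      rw [h1]
      simp [D.fderiv_c_one q]
    have hV1 := (hVH q hq).1
    have hV2 := (hVH q hq).2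
    have hW1 := (hWH q hq).1
    have hW2 := (hWH q hq).2
    simp only [bracket, Fin.sum_univ_three]
    constructor
    · rw [(kV _).1, (kV _).1, (kV _).1, (kW _).1, (kW _).1, (kW _).1]
      ring
    · rw [(kV _).2, (kV _).2, (kV _).2, (kW _).2, (kW _).2, (kW _).2, hc1, hV1, hV2, hW1, hW2]
      ring

lemma S_H (p : E 3) : D.S.H p = Submodule.span ℂ {D.L p} := rfl

end Data

end Pool.Agent.Lib.MP_430a41_an
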