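import Mathlib

set_option autoImplicit false

open Set Filter Topology
open scoped ContDiff Manifold

/-!
# CR structures on `ℝⁿ`, local CR diffeomorphisms, orbits, infinitesimal automorphisms

The manifold is `M = ℝⁿ`, written `Fin n → ℝ`; its complexified tangent bundle is trivialised by the
coordinate vector fields, so that `ℂT_xM = Fin n → ℂ`, a vector `v` standing for `∑ v_j ∂/∂x_j`.
-/

namespace Pool.Agent.Lib.MP_430a41_an

/-- The manifold `ℝⁿ`. -/
abbrev E (n : ℕ) : Type := Fin n → ℝ

/-- The complexified tangent space `ℂT_xℝⁿ`. -/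
abbrev CT (n : ℕ) : Type := Fin n → ℂ

/-- The Jacobian matrix `(∂h_i/∂x_j)` of `h` at `x`, viewed as a complex matrix; acting on `CT n` it
is the complexified differential of `h` at `x`. -/
noncomputable def jac {n : ℕ} (h : E n → E n) (x : E n) : Matrix (Fin n) (Fin n) ℂ :=
  fun i j => ((fderiv ℝ h x (Pi.single j 1) i : ℝ) : ℂ)

/-- The Lie bracket `[V, W] = ∑_i (∑_j V_j ∂_j W_i - W_j ∂_j V_i) ∂_i` of complex vector fields. -/
noncomputable def bracket {n : ℕ} (V W : E n → CT n) (x : E n) : CT n :=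
  fun i => ∑ j, (V x j * fderiv ℝ W x (Pi.single j 1) i - W x j * fderiv ℝ V x (Pi.single j 1) i)

/-- A (smooth) CR structure on the manifold `ℝⁿ`: a smooth complex subbundle `H ⊆ ℂTℝⁿ` of constant
rank with `H ∩ H̄ = 0`, whose sections are closed under the Lie bracket. -/
structure CRStructure (n : ℕ) where
  /-- the fibres of the subbundle `H` -/
  H : E n → Submodule ℂ (CT n)
  /-- the CR dimension -/
  rank : ℕ
  /-- `H` has smooth local frames with `rank` elements -/
  frame : ∀ p, ∃ U : Set (E n), IsOpen U ∧ p ∈ U ∧ ∃ L : Fin rank → E n → CT n,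
    (∀ j, ContDiffOn ℝ ∞ (L j) U) ∧ ∀ q ∈ U, LinearIndependent ℂ (fun j => L j q) ∧
      H q = Submodule.span ℂ (Set.range fun j => L j q)
  /-- `H ∩ H̄ = 0` -/
  inf_conj : ∀ p, ∀ v ∈ H p, (fun i => (starRingEnd ℂ) (v i)) ∈ H p → v = 0
  /-- the sections of `H` are closed under the Lie bracket -/
  involutive : ∀ U : Set (E n), IsOpen U → ∀ V W : E n → CT n, ContDiffOn ℝ ∞ V U →
    ContDiffOn ℝ ∞ W U → (∀ q ∈ U, V q ∈ H q) → (∀ q ∈ U, W q ∈ H q) →
    ∀ q ∈ U, bracket V W q ∈ H q

/-- A CR diffeomorphism `h : U → V` between open subsets of `M` (`U = h.source`, `V = h.target`):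
a diffeomorphism whose complexified differential maps `H` onto `H`. -/
def IsCRDiffeo {n : ℕ} (S : CRStructure n) (h : OpenPartialHomeomorph (E n) (E n)) : Prop :=
  ContDiffOn ℝ ∞ h h.source ∧ ContDiffOn ℝ ∞ h.symm h.target ∧
    ∀ x ∈ h.source, (S.H x).map (jac h x).mulVecLin = S.H (h x)

/-- The orbit `O(p)`: all `q` such that some CR diffeomorphism between open neighbourhoods of `p`
and `q` maps `p` to `q`. -/
def orbit {n : ℕ} (S : CRStructure n) (p : E n) : Set (E n) :=
  {q | ∃ h : OpenPartialHomeomorph (E n) (E n), IsCRDiffeo S h ∧ p ∈ h.source ∧ h p = q}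

/-- `X` is (a representative of) an infinitesimal CR automorphism near `q`: a smooth real vector
field on a neighbourhood `U` of `q` whose local flow `Φ` near `q` consists of CR diffeomorphisms. -/
def IsInfAut {n : ℕ} (S : CRStructure n) (q : E n) (X : E n → E n) : Prop :=
  ∃ U : Set (E n), IsOpen U ∧ q ∈ U ∧ ContDiffOn ℝ ∞ X U ∧
    ∃ ε : ℝ, 0 < ε ∧ ∃ W : Set (E n), IsOpen W ∧ q ∈ W ∧ W ⊆ U ∧
      ∃ Φ : ℝ → OpenPartialHomeomorph (E n) (E n),
        (∀ t ∈ Ioo (-ε) ε, IsCRDiffeo S (Φ t) ∧ (Φ t).source = W ∧ (Φ t).target ⊆ U) ∧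
        (∀ w ∈ W, Φ 0 w = w) ∧
        ∀ w ∈ W, ∀ t ∈ Ioo (-ε) ε, HasDerivAt (fun τ => Φ τ w) (X (Φ t w)) t

/-- The set of values at `q` of the infinitesimal CR automorphisms near `q`, that is, the span
`{X(q) : X ∈ hol(M, q)}` of `hol(M, q)` at `q`. -/
def holSpan {n : ℕ} (S : CRStructure n) (q : E n) : Set (E n) :=
  {v | ∃ X : E n → E n, IsInfAut S q X ∧ X q = v}

/-- `N` (with its atlas) is a smooth manifold of dimension `d`. -/
def IsSmoothManifold (d : ℕ) (N : Type) [TopologicalSpace N] [ChartedSpace (E d) N] : Prop :=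
  IsManifold 𝓘(ℝ, E d) ∞ N

/-- `ι` is a smooth map from the manifold `N` of dimension `d` to `ℝⁿ`. -/
def IsSmoothMap (d n : ℕ) {N : Type} [TopologicalSpace N] [ChartedSpace (E d) N] (ι : N → E n) :
    Prop :=
  ContMDiff 𝓘(ℝ, E d) 𝓘(ℝ, E n) ∞ ι

/-- The differential at `x` of a map `ι` from the manifold `N` of dimension `d` to `ℝⁿ`. -/
noncomputable def differential (d n : ℕ) {N : Type} [TopologicalSpace N] [ChartedSpace (E d) N]
    (ι : N → E n) (x : N) : E d →L[ℝ] E n :=
  mfderiv 𝓘(ℝ, E d) 𝓘(ℝ, E n) ι x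

/-- An immersed submanifold structure on a subset `A` of `ℝⁿ`: a smooth injective immersion
`ι : N → ℝⁿ` with image `A` of a Hausdorff second countable smooth manifold `N` of dimension
`d`. -/
structure ImmersedSubmanifold {n : ℕ} (A : Set (E n)) where
  /-- the dimension -/
  d : ℕ
  /-- the abstract manifold -/
  N : Type
  /-- its topology -/
  [top : TopologicalSpace N]
  [t2 : T2Space N]
  [sc : SecondCountableTopology N]
  /-- its atlas -/
  [charted : ChartedSpace (E d) N]
  mfd : IsSmoothManifold d N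
  /-- the inclusion -/
  ι : N → E n
  smooth : IsSmoothMap d n ι
  inj : Function.Injective ι
  immersion : ∀ x, Function.Injective (differential d n ι x)
  range_eq : Set.range ι = A

attribute [instance] ImmersedSubmanifold.top ImmersedSubmanifold.t2 ImmersedSubmanifold.sc
  ImmersedSubmanifold.charted

/-- The tangent space of an immersed submanifold at the point `ι x`, as a subset of `ℝⁿ`. -/
noncomputable def ImmersedSubmanifold.tangent {n : ℕ} {A : Set (E n)}
    (σ : ImmersedSubmanifold A) (x : σ.N) : Set (E n) :=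
  Set.range (differential σ.d n σ.ι x)

end Pool.Agent.Lib.MP_430a41_an
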