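import Pool.Agent.Lib.MP_430a41_an.Shear

set_option autoImplicit false

open Set Filter Topology
open scoped ContDiff Manifold

/-! Infinitesimal automorphisms at points of the plane `{x 2 = 0}`, and the example for Q2. -/

namespace Pool.Agent.Lib.MP_430a41_an

namespace Data

variable (D : Data)

lemma infAut_zero_of_mem_Z {q : E 3} {X : E 3 → E 3} {ε : ℝ} (hε : 0 < ε) {W : Set (E 3)}
    {Φ : ℝ → OpenPartialHomeomorph (E 3) (E 3)}
    (hΦ : ∀ t ∈ Ioo (-ε) ε, IsCRDiffeo D.S (Φ t) ∧ (Φ t).source = W)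
    (hq : Φ 0 q = q) (hder : ∀ t ∈ Ioo (-ε) ε, HasDerivAt (fun τ => Φ τ q) (X (Φ t q)) t)
    (hqW : q ∈ W) (hqZ : q ∈ D.Z) : X q 0 = 0 := by
  obtain ⟨k, hk, hsin⟩ := D.mem_Z_iff.1 hqZ
  have h0 : (0 : ℝ) ∈ Ioo (-ε) ε := ⟨by linarith, hε⟩
  have hd := hder 0 h0
  rw [hq] at hd
  have hd0 : HasDerivAt (fun τ => Φ τ q 0) (X q 0) 0 := (hasDerivAt_pi.1 hd) 0
  have hc : ContinuousAt (fun τ => Φ τ q 2) 0 := ((hasDerivAt_pi.1 hd) 2).continuousAt
  have hopen : IsOpen (D.strip k) := isOpen_lt (by fun_prop) continuous_const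
  have h1 : ∀ᶠ t in 𝓝 (0 : ℝ), Φ t q 2 ∈ D.strip k := by
    refine hc ?_
    refine hopen.mem_nhds ?_
    show Φ 0 q 2 ∈ D.strip k
    rw [hq]
    exact hk
  have h2 : (fun t => Real.sin (2 * Real.pi / D.ε k * Φ t q 0)) =ᶠ[𝓝 (0 : ℝ)] fun _ => 0 := by
    filter_upwards [h1, isOpen_Ioo.mem_nhds h0] with t ht1 ht2
    have hsrc : q ∈ (Φ t).source := by rw [(hΦ t ht2).2]; exact hqW
    have hZ : Φ t q ∈ D.Z := (D.isImage_Z (hΦ t ht2).1 hsrc).2 hqZ
    obtain ⟨j, hj, hjs⟩ := D.mem_Z_iff.1 hZ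
    rw [D.strip_unique hj ht1] at hjs
    exact hjs
  have h3 : HasDerivAt (fun t => Real.sin (2 * Real.pi / D.ε k * Φ t q 0))
      (Real.cos (2 * Real.pi / D.ε k * Φ 0 q 0) * (2 * Real.pi / D.ε k * X q 0)) 0 :=
    (hd0.const_mul _).sin
  have h4 := h2.deriv_eq
  rw [h3.deriv, deriv_const, hq] at h4
  have hcos : Real.cos (2 * Real.pi / D.ε k * q 0) ≠ 0 := by
    intro h
    have := Real.sin_sq_add_cos_sq (2 * Real.pi / D.ε k * q 0)
    rw [h, hsin] at this
    norm_num at this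
  have hne : 2 * Real.pi / D.ε k ≠ 0 := by
    have := D.ε_pos k
    have := Real.pi_pos
    positivity
  rcases mul_eq_zero.1 h4 with h | h
  · exact absurd h hcos
  · rcases mul_eq_zero.1 h with h | h
    · exact absurd h hne
    · exact h

/-- Points of `Z` accumulate at every point of the plane when the periods tend to zero. -/
lemma exists_seq_Z (hε : Tendsto D.ε atTop (𝓝 0)) {q : E 3} (hq : q 2 = 0) :
    ∃ w : ℕ → E 3, Tendsto w atTop (𝓝 q) ∧ ∀ k, w k ∈ D.Z := by
  set a : ℕ → ℝ := fun k => round (q 0 / D.ε k) * D.ε k - q 0 with ha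
  have ha' : ∀ k, |a k| ≤ D.ε k := by
    intro k
    have hk := D.ε_pos k
    have h1 := abs_sub_round (q 0 / D.ε k)
    have h2 : a k = -((q 0 / D.ε k - round (q 0 / D.ε k)) * D.ε k) := by
      simp only [ha]; field_simp; ring
    rw [h2, abs_neg, abs_mul, abs_of_pos hk]
    nlinarith
  have ha0 : Tendsto a atTop (𝓝 0) := squeeze_zero_norm ha' hε
  refine ⟨fun k => q + a k • (Pi.single 0 1 : E 3) + D.y k • (Pi.single 2 1 : E 3), ?_, ?_⟩
  · have h1 : Tendsto (fun k => q + a k • (Pi.single 0 1 : E 3) + D.y k • (Pi.single 2 1 : E 3))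
        atTop (𝓝 (q + (0 : ℝ) • (Pi.single 0 1 : E 3) + (0 : ℝ) • (Pi.single 2 1 : E 3))) :=
      (tendsto_const_nhds.add (ha0.smul_const _)).add (D.tendsto_y.smul_const _)
    simpa using h1
  · intro k
    rw [mem_Z_iff]
    have hk := D.ε_pos k
    refine ⟨k, ?_, ?_⟩
    · have h2 : (q + a k • (Pi.single 0 1 : E 3) + D.y k • (Pi.single 2 1 : E 3)) 2 = D.y k := by
        simp [hq]
      show (q + a k • (Pi.single 0 1 : E 3) + D.y k • (Pi.single 2 1 : E 3)) 2 ∈ D.strip k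
      rw [h2]
      show |D.y k - D.y k| < D.ρ k
      rw [sub_self, abs_zero]
      exact D.ρ_pos k
    · have h2 : (q + a k • (Pi.single 0 1 : E 3) + D.y k • (Pi.single 2 1 : E 3)) 0
          = round (q 0 / D.ε k) * D.ε k := by
        simp [ha]
      show Real.sin (2 * Real.pi / D.ε k *
        (q + a k • (Pi.single 0 1 : E 3) + D.y k • (Pi.single 2 1 : E 3)) 0) = 0
      rw [h2]
      have h3 : 2 * Real.pi / D.ε k * (round (q 0 / D.ε k) * D.ε k) =
          ((2 * round (q 0 / D.ε k) : ℤ) : ℝ) * Real.pi := by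
        push_cast; field_simp
      rw [h3]
      exact Real.sin_int_mul_pi _

/-- Infinitesimal CR automorphisms have no component in the direction of `∂₀` on the plane. -/
lemma holSpan_subset (hε : Tendsto D.ε atTop (𝓝 0)) {q : E 3} (hq : q 2 = 0) {v : E 3}
    (hv : v ∈ holSpan D.S q) : v 0 = 0 := by
  obtain ⟨X, ⟨U, hU, hqU, hX, ε, hε0, W, hW, hqW, hWU, Φ, hΦ, hΦ0, hder⟩, rfl⟩ := hv
  obtain ⟨w, hw, hwZ⟩ := D.exists_seq_Z hε hq
  have hXc : ContinuousAt X q := (hX.contDiffAt (hU.mem_nhds hqU)).continuousAt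
  have h1 : Tendsto (fun k => X (w k) 0) atTop (𝓝 (X q 0)) :=
    ((continuous_apply 0).tendsto _).comp (hXc.tendsto.comp hw)
  have h2 : (fun k => X (w k) 0) =ᶠ[atTop] fun _ => 0 := by
    filter_upwards [hw (hW.mem_nhds hqW)] with k hk
    exact D.infAut_zero_of_mem_Z hε0 (fun t ht => ⟨(hΦ t ht).1, (hΦ t ht).2.1⟩) (hΦ0 _ hk)
      (fun t ht => hder _ hk t ht) hk (hwZ k)
  exact tendsto_nhds_unique (h1.congr' h2) tendsto_const_nhds |>.symm ▸ rfl

end Data

lemma summable_aux {θ ρ : ℕ → ℝ} (hρ : ∀ k, 0 < ρ k) (hρ1 : ∀ k, ρ k ≤ 1) (hθ0 : ∀ k, 0 ≤ θ k)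
    (hθ : ∀ k, θ k ≤ ρ k ^ (k + 1) * (1 / 2) ^ k) (i : ℕ) :
    Summable fun k => θ k * (ρ k)⁻¹ ^ i := by
  refine Summable.of_norm_bounded_eventually_nat (g := fun k => (1 / 2 : ℝ) ^ k)
    summable_geometric_two ?_
  filter_upwards [eventually_ge_atTop i] with k hk
  have h0 : 0 ≤ θ k * (ρ k)⁻¹ ^ i := by
    have := hθ0 k; have := hρ k; positivity
  rw [Real.norm_eq_abs, abs_of_nonneg h0]
  have hρk := hρ k
  calc θ k * (ρ k)⁻¹ ^ i ≤ ρ k ^ (k + 1) * (1 / 2) ^ k * (ρ k)⁻¹ ^ i := by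
        have := hθ k; gcongr
    _ = ρ k ^ (k + 1 - i) * (1 / 2) ^ k := by
        have : ρ k ^ (k + 1) = ρ k ^ (k + 1 - i) * ρ k ^ i := by
          rw [← pow_add]; congr 1; omega
        have h1 : ρ k ^ i * (ρ k)⁻¹ ^ i = 1 := by
          rw [← mul_pow, mul_inv_cancel₀ hρk.ne', one_pow]
        rw [this]
        linear_combination (ρ k ^ (k + 1 - i) * (1 / 2) ^ k) * h1
    _ ≤ 1 * (1 / 2) ^ k := by
        have := pow_le_one₀ (n := k + 1 - i) (hρ k).le (hρ1 k)
        gcongr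
    _ = (1 / 2) ^ k := one_mul _

/-- The parameters of the example for Q2. -/
noncomputable def par2 : Par where
  y k := (1 / 27) ^ k
  ρ k := (1 / 27) ^ (k + 1)
  ε k := ((1 / 27) ^ (k + 1)) ^ (k + 1) * (1 / 2) ^ k
  y_pos k := by positivity
  y_succ k := by rw [pow_succ]; linarith
  ρ_eq k := by rw [pow_succ]; ring
  ε_pos k := by positivity

lemma par2_ε_tendsto : Tendsto par2.ε atTop (𝓝 0) := by
  refine squeeze_zero (fun k => (par2.ε_pos k).le) (g := fun k => (1 / 2 : ℝ) ^ k) (fun k => ?_)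
    (tendsto_pow_atTop_nhds_zero_of_lt_one (by norm_num) (by norm_num))
  show ((1 / 27 : ℝ) ^ (k + 1)) ^ (k + 1) * (1 / 2) ^ k ≤ (1 / 2) ^ k
  have h1 : (1 / 27 : ℝ) ^ (k + 1) ≤ 1 := pow_le_one₀ (by norm_num) (by norm_num)
  have h2 : ((1 / 27 : ℝ) ^ (k + 1)) ^ (k + 1) ≤ 1 := pow_le_one₀ (by positivity) h1
  have h3 : (0 : ℝ) < (1 / 2) ^ k := by positivity
  nlinarith

lemma orbit_par2 {D : Data} (hD : D.toPar = par2) : orbit D.S 0 = {q | q 2 = 0} := by
  apply Subset.antisymm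
  · rintro q ⟨h, hh, h0, rfl⟩
    exact (D.plane_iff hh h0).2 rfl
  · intro q hq
    have hq2 : q 2 = 0 := hq
    have h1 := D.mem_orbit_of_approx (t := q 0) (fun k => round (q 0 / D.ε k)) D.ε ?_ ?_ (q 1)
      (p := 0) rfl
    · have h2 : (0 : E 3) + q 0 • (Pi.single 0 1 : E 3) + q 1 • (Pi.single 1 1 : E 3) = q := by
        ext i; fin_cases i
        · simp
        · simp
        · simp [hq2]
      rwa [h2] at h1
    · intro k
      have hk := D.ε_pos k
      have h1 := abs_sub_round (q 0 / D.ε k)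
      have h2 : round (q 0 / D.ε k) * D.ε k - q 0
          = -((q 0 / D.ε k - round (q 0 / D.ε k)) * D.ε k) := by
        field_simp; ring
      rw [h2, abs_neg, abs_mul, abs_of_pos hk]
      nlinarith
    · refine summable_aux D.ρ_pos ?_ (fun k => (D.ε_pos k).le) ?_
      · intro k
        rw [hD]
        exact pow_le_one₀ (by norm_num) (by norm_num)
      · intro k
        rw [hD]
        exact le_rfl

/-- The parametrisation of the plane `{q 2 = 0}`. -/
noncomputable def planeMap : E 2 →L[ℝ] E 3 :=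
  ContinuousLinearMap.pi ![ContinuousLinearMap.proj (R := ℝ) (φ := fun _ : Fin 2 => ℝ) 0,
    ContinuousLinearMap.proj (R := ℝ) (φ := fun _ : Fin 2 => ℝ) 1, 0]

lemma planeMap_injective : Function.Injective planeMap := by
  intro x y h
  have h0 := congrFun h 0
  have h1 := congrFun h 1
  ext i
  fin_cases i
  · simpa [planeMap] using h0
  · simpa [planeMap] using h1

lemma range_planeMap : Set.range planeMap = {q : E 3 | q 2 = 0} := by
  ext q
  constructor
  · rintro ⟨x, rfl⟩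
    simp [planeMap]
  · intro hq
    have hq2 : q 2 = 0 := hq
    refine ⟨![q 0, q 1], ?_⟩
    ext i
    fin_cases i
    · simp [planeMap]
    · simp [planeMap]
    · simp [planeMap, hq2]

lemma differential_planeMap (x : E 2) : differential 2 3 (planeMap : E 2 → E 3) x = planeMap := by
  unfold differential
  rw [mfderiv_eq_fderiv]
  exact planeMap.fderiv

/-- The plane `{q 2 = 0}` as a submanifold. -/
noncomputable def planeSubmanifold {B : Set (E 3)} (hB : B = {q : E 3 | q 2 = 0}) :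
    ImmersedSubmanifold B where
  d := 2
  N := E 2
  ι := planeMap
  mfd := (inferInstance : IsManifold 𝓘(ℝ, E 2) ∞ (E 2))
  smooth := planeMap.contDiff.contMDiff
  inj := planeMap_injective
  immersion x := by
    rw [differential_planeMap x]
    exact planeMap_injective
  range_eq := by rw [hB]; exact range_planeMap

lemma planeSubmanifold_tangent {B : Set (E 3)} (hB : B = {q : E 3 | q 2 = 0})
    (x : (planeSubmanifold hB).N) : (planeSubmanifold hB).tangent x = {v | v 2 = 0} := by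
  have h1 : (planeSubmanifold hB).tangent x =
    Set.range (differential 2 3 (planeMap : E 2 → E 3) x) := rfl
  rw [h1, differential_planeMap x]
  exact range_planeMap

/-- The example for Q2. -/
theorem exists_tangent_not_spanned : ∃ S : CRStructure 3,
    (∃ c : E 3 → ℝ, ContDiff ℝ ∞ c ∧ (∀ p, 0 ≤ c p) ∧
      ∀ p, S.H p = Submodule.span ℂ {![1, Complex.I, Complex.I * (c p : ℂ)]}) ∧
    orbit S 0 = {q | q 2 = 0} ∧
    ∃ σ : ImmersedSubmanifold (orbit S 0), Topology.IsClosedEmbedding σ.ι ∧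
      ∀ x, σ.tangent x = {v | v 2 = 0} ∧ holSpan S (σ.ι x) ⊆ {v | v 0 = 0} ∧
        holSpan S (σ.ι x) ≠ σ.tangent x := by
  obtain ⟨D, hD⟩ := exists_data par2
  have horb := orbit_par2 hD
  have hε : Tendsto D.ε atTop (𝓝 0) := by rw [hD]; exact par2_ε_tendsto
  have hspan : ∀ q ∈ orbit D.S 0, ∀ v ∈ holSpan D.S q, v 0 = 0 := by
    intro q hq v hv
    rw [horb] at hq
    exact D.holSpan_subset hε hq hv
  refine ⟨D.S, ⟨D.c, D.c_smooth, D.c_nonneg, fun p => rfl⟩, horb, planeSubmanifold horb, ?_,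
    fun x => ⟨planeSubmanifold_tangent horb x, ?_, ?_⟩⟩
  · exact planeMap.isClosedEmbedding_of_injective (LinearMap.ker_eq_bot.2 planeMap_injective)
  · intro v hv
    exact hspan _ ((planeSubmanifold horb).range_eq.subset (mem_range_self x)) v hv
  · intro heq
    rw [planeSubmanifold_tangent] at heq
    have h1 : (Pi.single 0 1 : E 3) ∈ {v : E 3 | v 2 = 0} := by
      show (Pi.single 0 1 : E 3) 2 = 0
      simp
    rw [← heq] at h1
    have hx : (planeSubmanifold horb).ι x ∈ orbit D.S 0 :=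
      (planeSubmanifold horb).range_eq.subset (mem_range_self x)
    have := hspan _ hx _ h1
    simp at this

end Pool.Agent.Lib.MP_430a41_an
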