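import Pool.Agent.Lib.MP_430a41_an.Cr

set_option autoImplicit false

open Set Filter Topology
open scoped ContDiff

/-! The set `N` (where the Levi form is nonzero) is invariant under CR diffeomorphisms. -/

namespace Pool.Agent.Lib.MP_430a41_an

lemma two_le_infty : (2 : WithTop ℕ∞) ≤ ∞ :=
  (WithTop.coe_le_coe.2 le_top : ((2 : ℕ∞) : WithTop ℕ∞) ≤ ∞)

lemma one_add_one_le_infty : (1 : WithTop ℕ∞) + 1 ≤ ∞ := by
  have : (1 : WithTop ℕ∞) + 1 = 2 := by norm_num
  rw [this]
  exact two_le_infty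

/-- entries of the real Jacobian matrix -/
noncomputable def A (h : E 3 → E 3) (i j : Fin 3) (x : E 3) : ℝ := fderiv ℝ h x (Pi.single j 1) i

lemma differentiableAt_A {h : E 3 → E 3} {x : E 3} (hh : ContDiffAt ℝ ∞ h x) (i j : Fin 3) :
    DifferentiableAt ℝ (A h i j) x := by
  have h1 : DifferentiableAt ℝ (fderiv ℝ h) x :=
    (hh.fderiv_right (m := 1) one_add_one_le_infty).differentiableAt (by simp)
  have h2 : DifferentiableAt ℝ (fun y => fderiv ℝ h y (Pi.single j 1)) x :=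
    h1.clm_apply (differentiableAt_const _)
  exact (ContinuousLinearMap.proj (R := ℝ) (φ := fun _ : Fin 3 => ℝ) i).differentiableAt.comp x h2

lemma fderiv_A {h : E 3 → E 3} {x : E 3} (hh : ContDiffAt ℝ ∞ h x) (i j : Fin 3) (v : E 3) :
    fderiv ℝ (A h i j) x v = fderiv ℝ (fderiv ℝ h) x v (Pi.single j 1) i := by
  have h1 : DifferentiableAt ℝ (fderiv ℝ h) x :=
    (hh.fderiv_right (m := 1) one_add_one_le_infty).differentiableAt (by simp)
  have h2 := (((ContinuousLinearMap.proj (R := ℝ) (φ := fun _ : Fin 3 => ℝ) i).comp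
    (ContinuousLinearMap.apply ℝ (E 3) (Pi.single j 1 : E 3))).hasFDerivAt.comp x
    h1.hasFDerivAt).fderiv
  have h3 : fderiv ℝ (A h i j) x = _ := h2
  rw [h3]; rfl

lemma fderiv_A_symm {h : E 3 → E 3} {x : E 3} (hh : ContDiffAt ℝ ∞ h x) (i j k : Fin 3) :
    fderiv ℝ (A h i j) x (Pi.single k 1) = fderiv ℝ (A h i k) x (Pi.single j 1) := by
  rw [fderiv_A hh, fderiv_A hh]
  have : IsSymmSndFDerivAt ℝ h x :=
    hh.isSymmSndFDerivAt (by simpa using two_le_infty)
  rw [this.eq]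

namespace Data

variable (D : Data)

/-- The pointwise relations satisfied by a CR diffeomorphism. -/
lemma relations {h : OpenPartialHomeomorph (E 3) (E 3)} (hh : IsCRDiffeo D.S h) {x : E 3}
    (hx : x ∈ h.source) :
    A h 1 0 x = -(A h 0 1 x + D.c x * A h 0 2 x) ∧
    A h 1 1 x + D.c x * A h 1 2 x = A h 0 0 x ∧
    A h 2 0 x = D.c (h x) * A h 1 0 x ∧
    A h 2 1 x + D.c x * A h 2 2 x = D.c (h x) * (A h 1 1 x + D.c x * A h 1 2 x) ∧
    A h 0 0 x ^ 2 + A h 1 0 x ^ 2 ≠ 0 := by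
  have hmap := hh.2.2 x hx
  rw [S_H, S_H, Submodule.map_span, Set.image_singleton] at hmap
  have hmem : (jac h x).mulVecLin (D.L x) ∈ Submodule.span ℂ {D.L (h x)} := by
    rw [← hmap]; exact Submodule.mem_span_singleton_self _
  have hne : (jac h x).mulVecLin (D.L x) ≠ 0 := by
    intro h0
    rw [h0] at hmap
    have : D.L (h x) ∈ Submodule.span ℂ {(0 : CT 3)} := by
      rw [hmap]; exact Submodule.mem_span_singleton_self _
    rw [Submodule.span_zero_singleton] at this
    exact D.L_ne_zero _ this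
  rw [mem_span_L_iff] at hmem
  have hv : ∀ i, (jac h x).mulVecLin (D.L x) i =
      (A h i 0 x : ℂ) + Complex.I * ((A h i 1 x + D.c x * A h i 2 x : ℝ) : ℂ) := by
    intro i
    simp only [Matrix.mulVecLin_apply, Matrix.mulVec, dotProduct, Fin.sum_univ_three, jac, L, A,
      Matrix.cons_val_zero, Matrix.cons_val_one, Matrix.cons_val]
    push_cast
    ring
  obtain ⟨h1, h2⟩ := hmem
  rw [hv, hv] at h1 h2
  have e1 := congrArg Complex.re h1
  have e2 := congrArg Complex.im h1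
  have e3 := congrArg Complex.re h2
  have e4 := congrArg Complex.im h2
  simp at e1 e2 e3 e4
  refine ⟨by linarith, by linarith, ?_, ?_, ?_⟩
  · rw [e3, e1]; ring
  · rw [e4, e2]
  · intro h0
    apply hne
    have h00 : A h 0 0 x = 0 := by nlinarith [sq_nonneg (A h 0 0 x), sq_nonneg (A h 1 0 x)]
    have h10 : A h 1 0 x = 0 := by nlinarith [sq_nonneg (A h 0 0 x), sq_nonneg (A h 1 0 x)]
    have h01 : A h 0 1 x + D.c x * A h 0 2 x = 0 := by linarith
    ext i
    rw [hv]
    fin_cases i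
    · simp only [Fin.zero_eta]
      rw [h00, h01]; simp
    · simp only [Fin.mk_one]
      rw [h10, e2, h00]; simp
    · simp only [Fin.reduceFinMk]
      rw [e4, e3, h01, h00]; simp

/-- The Levi form transforms as it should. -/
lemma levi {h : OpenPartialHomeomorph (E 3) (E 3)} (hh : IsCRDiffeo D.S h) {x : E 3}
    (hx : x ∈ h.source) :
    fderiv ℝ D.c x (Pi.single 0 1) * (A h 2 2 x - D.c (h x) * A h 1 2 x) =
      fderiv ℝ D.c (h x) (Pi.single 0 1) * (A h 0 0 x ^ 2 + A h 1 0 x ^ 2) := by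
  have hcd : ContDiffAt ℝ ∞ h x := hh.contDiffAt hx
  have hnhds : h.source ∈ 𝓝 x := h.open_source.mem_nhds hx
  have hc : DifferentiableAt ℝ D.c x := (D.c_smooth.differentiable (by simp)) x
  have hc' : DifferentiableAt ℝ D.c (h x) := (D.c_smooth.differentiable (by simp)) _
  have hhd : DifferentiableAt ℝ h x := hcd.differentiableAt (by simp)
  have hC : DifferentiableAt ℝ (fun y => D.c (h y)) x := hc'.comp x hhd
  have dA := fun i j => differentiableAt_A hcd i j
  -- derivative of `C = c ∘ h`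
  have hCv : ∀ k : Fin 3, fderiv ℝ (fun y => D.c (h y)) x (Pi.single k 1) =
      fderiv ℝ D.c (h x) (Pi.single 0 1) * A h 0 k x +
        fderiv ℝ D.c (h x) (Pi.single 2 1) * A h 2 k x := by
    intro k
    have h1 : fderiv ℝ (fun y => D.c (h y)) x = (fderiv ℝ D.c (h x)).comp (fderiv ℝ h x) :=
      fderiv_comp x hc' hhd
    rw [h1]
    set w : E 3 := fderiv ℝ h x (Pi.single k 1) with hw
    have h2 : w = w 0 • (Pi.single 0 1 : E 3) + w 1 • (Pi.single 1 1 : E 3)
        + w 2 • (Pi.single 2 1 : E 3) := by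
      ext i; fin_cases i <;> simp
    have h3 : (fderiv ℝ D.c (h x)) w = w 0 * fderiv ℝ D.c (h x) (Pi.single 0 1) +
        w 1 * fderiv ℝ D.c (h x) (Pi.single 1 1) + w 2 * fderiv ℝ D.c (h x) (Pi.single 2 1) := by
      conv_lhs => rw [h2]
      simp only [map_add, map_smul, smul_eq_mul]
    have h4 : ((fderiv ℝ D.c (h x)).comp (fderiv ℝ h x)) (Pi.single k 1) =
      (fderiv ℝ D.c (h x)) w := rfl
    rw [h4, h3, D.fderiv_c_one]
    simp only [A, ← hw]
    ring
  -- the relations near `x`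
  have R3 : A h 2 0 =ᶠ[𝓝 x] fun y => D.c (h y) * A h 1 0 y := by
    filter_upwards [hnhds] with y hy using (D.relations hh hy).2.2.1
  have R4 : (fun y => A h 2 1 y + D.c y * A h 2 2 y) =ᶠ[𝓝 x]
      fun y => D.c (h y) * (A h 1 1 y + D.c y * A h 1 2 y) := by
    filter_upwards [hnhds] with y hy using (D.relations hh hy).2.2.2.1
  have d3 : ∀ v : E 3, fderiv ℝ (A h 2 0) x v =
      fderiv ℝ (fun y => D.c (h y)) x v * A h 1 0 x + D.c (h x) * fderiv ℝ (A h 1 0) x v := by
    intro v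
    have h1 : fderiv ℝ (fun y => D.c (h y) * A h 1 0 y) x
        = (D.c (h x)) • fderiv ℝ (A h 1 0) x + (A h 1 0 x) • fderiv ℝ (fun y => D.c (h y)) x :=
      fderiv_fun_mul hC (dA 1 0)
    rw [R3.fderiv_eq, h1]
    simp only [_root_.add_apply, smul_apply, smul_eq_mul]
    ring
  have hl : ∀ i j k : Fin 3, ∀ v : E 3, fderiv ℝ (fun y => A h i j y + D.c y * A h i k y) x v =
      fderiv ℝ (A h i j) x v + fderiv ℝ D.c x v * A h i k x + D.c x * fderiv ℝ (A h i k) x v := by
    intro i j k v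
    have h1 : fderiv ℝ (fun y => A h i j y + D.c y * A h i k y) x
        = fderiv ℝ (A h i j) x + (D.c x • fderiv ℝ (A h i k) x + A h i k x • fderiv ℝ D.c x) := by
      rw [fderiv_fun_add (dA i j) (hc.fun_mul (dA i k)), fderiv_fun_mul hc (dA i k)]
    rw [h1]
    simp only [_root_.add_apply, smul_apply, smul_eq_mul]
    ring
  have d4 : ∀ v : E 3, fderiv ℝ (A h 2 1) x v + fderiv ℝ D.c x v * A h 2 2 x
        + D.c x * fderiv ℝ (A h 2 2) x v =
      fderiv ℝ (fun y => D.c (h y)) x v * (A h 1 1 x + D.c x * A h 1 2 x) + D.c (h x) *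
        (fderiv ℝ (A h 1 1) x v + fderiv ℝ D.c x v * A h 1 2 x
          + D.c x * fderiv ℝ (A h 1 2) x v) := by
    intro v
    rw [← hl, ← hl, R4.fderiv_eq]
    have h1 : fderiv ℝ (fun y => D.c (h y) * (A h 1 1 y + D.c y * A h 1 2 y)) x
        = (D.c (h x)) • fderiv ℝ (fun y => A h 1 1 y + D.c y * A h 1 2 y) x +
          (A h 1 1 x + D.c x * A h 1 2 x) • fderiv ℝ (fun y => D.c (h y)) x :=
      fderiv_fun_mul hC ((dA 1 1).add (hc.fun_mul (dA 1 2)))
    rw [h1]
    simp only [_root_.add_apply, smul_apply, smul_eq_mul]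
    ring
  have e31 := d3 (Pi.single 1 1)
  have e32 := d3 (Pi.single 2 1)
  have e40 := d4 (Pi.single 0 1)
  rw [hCv] at e31 e32 e40
  rw [fderiv_A_symm hcd 2 0 1, fderiv_A_symm hcd 1 0 1] at e31
  rw [fderiv_A_symm hcd 2 0 2, fderiv_A_symm hcd 1 0 2] at e32
  obtain ⟨r1, r2, r3, r4, -⟩ := D.relations hh hx
  rw [r2] at e40 r4
  set c0 := fderiv ℝ D.c x (Pi.single 0 1)
  set c0h := fderiv ℝ D.c (h x) (Pi.single 0 1)
  set c2h := fderiv ℝ D.c (h x) (Pi.single 2 1)
  set C := D.c (h x)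
  set c := D.c x
  have r1' : A h 0 1 x + c * A h 0 2 x = -A h 1 0 x := by linarith
  linear_combination e40 - e31 - c * e32 + c2h * A h 0 0 x * r3 - c2h * A h 1 0 x * r4
    - c0h * A h 1 0 x * r1'

lemma not_mem_N_of {h : OpenPartialHomeomorph (E 3) (E 3)} (hh : IsCRDiffeo D.S h) {x : E 3}
    (hx : x ∈ h.source) (hN : x ∉ D.N) : h x ∉ D.N := by
  have h0 : fderiv ℝ D.c x (Pi.single 0 1) = 0 := by
    by_contra h; exact hN h
  have h1 := D.levi hh hx
  rw [h0, zero_mul] at h1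
  have h2 := (D.relations hh hx).2.2.2.2
  have h3 : fderiv ℝ D.c (h x) (Pi.single 0 1) = 0 := by
    rcases mul_eq_zero.1 h1.symm with h | h
    · exact h
    · exact absurd h h2
  intro h4
  exact h4 h3

/-- `N` is invariant. -/
lemma isImage_N {h : OpenPartialHomeomorph (E 3) (E 3)} (hh : IsCRDiffeo D.S h) :
    h.IsImage D.N D.N := by
  intro x hx
  constructor
  · intro h1
    by_contra h2
    exact D.not_mem_N_of hh hx h2 h1
  · intro h1
    by_contra h2
    have h3 := D.not_mem_N_of hh.symm (h.map_source hx) h2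
    rw [h.left_inv hx] at h3
    exact h3 h1

end Data

end Pool.Agent.Lib.MP_430a41_an
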