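import Pool.Agent.Lib.MP_430a41_an.Flow

set_option autoImplicit false

open Set Filter Topology
open scoped ContDiff Manifold

/-! The orbit of the origin, and the example for Q1. -/

namespace Pool.Agent.Lib.MP_430a41_an

namespace Data

variable (D : Data)

/-- Numbers well approximated by half periods. -/
def G : Set ℝ := {t | ∃ K : ℝ, ∀ᶠ k in atTop, ∃ m : ℤ, |t - m * (D.ε k / 2)| ≤ K * D.y k}

lemma G_sub {s t : ℝ} (hs : s ∈ D.G) (ht : t ∈ D.G) : s - t ∈ D.G := by
  obtain ⟨K, hK⟩ := hs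
  obtain ⟨K', hK'⟩ := ht
  refine ⟨K + K', ?_⟩
  filter_upwards [hK, hK'] with k h1 h2
  obtain ⟨m, hm⟩ := h1
  obtain ⟨m', hm'⟩ := h2
  refine ⟨m - m', ?_⟩
  have : s - t - ((m - m' : ℤ) : ℝ) * (D.ε k / 2) =
      (s - m * (D.ε k / 2)) - (t - m' * (D.ε k / 2)) := by push_cast; ring
  rw [this]
  have h3 := abs_sub (s - m * (D.ε k / 2)) (t - m' * (D.ε k / 2))
  linarith

lemma G_nat_mul {s : ℝ} (hs : s ∈ D.G) (n : ℕ) : n * s ∈ D.G := by
  obtain ⟨K, hK⟩ := hs
  refine ⟨n * K, ?_⟩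
  filter_upwards [hK] with k h1
  obtain ⟨m, hm⟩ := h1
  refine ⟨n * m, ?_⟩
  have : n * s - ((n * m : ℤ) : ℝ) * (D.ε k / 2) = n * (s - m * (D.ε k / 2)) := by
    push_cast; ring
  rw [this, abs_mul, Nat.abs_cast, mul_assoc]
  gcongr

/-- `G` contains no interval if it is not everything. -/
lemma G_no_interval {z : ℝ} (hz : 0 < z) (hzG : z ∉ D.G) {a b : ℝ} (hab : a < b) :
    ¬ Icc a b ⊆ D.G := by
  intro h
  obtain ⟨n, hn⟩ := exists_nat_gt (z / (b - a))
  have hba : 0 < b - a := by linarith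
  have hn0 : (0 : ℝ) < n := lt_trans (div_pos hz hba) hn
  have h1 : z / n ≤ b - a := by
    rw [div_lt_iff₀ hba] at hn
    rw [div_le_iff₀ hn0]
    linarith
  have h2 : 0 < z / n := div_pos hz hn0
  have h3 := D.G_sub (h ⟨by linarith, by linarith⟩ : a + z / n ∈ D.G) (h ⟨le_rfl, hab.le⟩)
  rw [add_sub_cancel_left] at h3
  have h4 := D.G_nat_mul h3 n
  rw [mul_div_cancel₀ _ hn0.ne'] at h4
  exact hzG h4

/-- Lipschitz estimate at one point. -/
lemma exists_bound_of_contDiffAt {h : E 3 → E 3} {x : E 3} (hh : ContDiffAt ℝ ∞ h x) :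
    ∃ K : ℝ, 1 ≤ K ∧ ∀ᶠ p in 𝓝 x ×ˢ 𝓝 x, dist (h p.1) (h p.2) ≤ K * dist p.1 p.2 := by
  obtain ⟨K, t, ht, hL⟩ := (hh.of_le (m := 1) (by exact_mod_cast le_top)).exists_lipschitzOnWith
  refine ⟨max 1 K, le_max_left _ _, ?_⟩
  filter_upwards [prod_mem_prod ht ht] with p hp
  refine (hL.dist_le_mul _ hp.1 _ hp.2).trans ?_
  have := le_max_right (1 : ℝ) K
  gcongr

/-- The key property of the orbit of the origin. -/
lemma orbit_zero_subset {r : ℕ → ℝ} (hr : Tendsto r atTop (𝓝 0))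
    (hy : ∀ k, D.y (k + 1) ≤ r k * D.y k) {q : E 3} (hq : q ∈ orbit D.S 0) :
    q 2 = 0 ∧ q 0 ∈ D.G := by
  obtain ⟨h, hh, h0, rfl⟩ := hq
  have hq2 : h 0 2 = 0 := (D.plane_iff hh h0).2 rfl
  refine ⟨hq2, ?_⟩
  obtain ⟨K, hK1, hK⟩ := exists_bound_of_contDiffAt (hh.contDiffAt h0)
  obtain ⟨K', hK1', hK'⟩ := exists_bound_of_contDiffAt (hh.contDiffAt_symm (h.map_source h0))
  have h0' : h.symm (h 0) = 0 := h.left_inv h0
  set w : ℕ → E 3 := fun k => (0 : E 3) + D.y k • (Pi.single 2 1 : E 3) with hw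
  have hwt : Tendsto w atTop (𝓝 0) := D.tendsto_above 0
  have hw2 : ∀ k, w k 2 = D.y k := by intro k; simp [hw]
  have hw0 : ∀ k, w k 0 = 0 := by intro k; simp [hw]
  have hwn : ∀ k, dist (w k) 0 = D.y k := by
    intro k
    rw [dist_zero_right]
    simp only [hw, zero_add, norm_smul, Real.norm_eq_abs, abs_of_pos (D.y_pos k)]
    simp [Pi.norm_single]
  have hwZ : ∀ k, w k ∈ D.Z := by
    intro k
    rw [mem_Z_iff]
    refine ⟨k, ?_, ?_⟩
    · rw [hw2]
      show |D.y k - D.y k| < D.ρ k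
      rw [sub_self, abs_zero]
      exact D.ρ_pos k
    · rw [hw0, mul_zero, Real.sin_zero]
  -- images
  have hht : Tendsto (fun k => h (w k)) atTop (𝓝 (h 0)) := (h.continuousAt h0).tendsto.comp hwt
  -- projections to the plane
  set z : ℕ → E 3 := fun k => h (w k) - (h (w k) 2) • (Pi.single 2 1 : E 3) with hz
  have hz2 : ∀ k, z k 2 = 0 := by intro k; simp [hz]
  have hzt : Tendsto z atTop (𝓝 (h 0)) := by
    have h1 : Tendsto z atTop (𝓝 (h 0 - (h 0 2) • (Pi.single 2 1 : E 3))) :=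
      hht.sub ((((continuous_apply 2).tendsto _).comp hht).smul_const _)
    simpa [hq2] using h1
  have hzd : ∀ k, dist (z k) (h (w k)) = |h (w k) 2| := by
    intro k
    rw [dist_comm, dist_eq_norm]
    simp only [hz, sub_sub_cancel, norm_smul, Real.norm_eq_abs]
    simp [Pi.norm_single]
  -- the two-sided bounds
  have e1 : ∀ᶠ k in atTop, w k ∈ h.source := hwt (h.open_source.mem_nhds h0)
  have e2 : ∀ᶠ k in atTop, dist (h (w k)) (h 0) ≤ K * D.y k := by
    have : Tendsto (fun k => (w k, (0 : E 3))) atTop (𝓝 0 ×ˢ 𝓝 0) :=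
      hwt.prodMk tendsto_const_nhds
    filter_upwards [this hK] with k hk
    have hk' : dist (h (w k)) (h 0) ≤ K * dist (w k) 0 := hk
    rwa [hwn] at hk'
  have e3 : ∀ᶠ k in atTop, z k ∈ h.target := hzt (h.open_target.mem_nhds (h.map_source h0))
  have e4 : ∀ᶠ k in atTop, D.y k ≤ K' * |h (w k) 2| := by
    have : Tendsto (fun k => (z k, h (w k))) atTop (𝓝 (h 0) ×ˢ 𝓝 (h 0)) := hzt.prodMk hht
    filter_upwards [this hK', e1, e3] with k hk hk1 hk3
    have hk' : dist (h.symm (z k)) (h.symm (h (w k))) ≤ K' * dist (z k) (h (w k)) := hk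
    rw [hzd, h.left_inv hk1] at hk'
    refine le_trans ?_ hk'
    have h5 : h.symm (z k) 2 = 0 := (D.plane_iff hh.symm hk3).2 (hz2 k)
    have h6 : dist (h.symm (z k) 2) (w k 2) ≤ dist (h.symm (z k)) (w k) :=
      dist_le_pi_dist _ _ 2
    rw [h5, hw2, Real.dist_eq, zero_sub, abs_neg, abs_of_pos (D.y_pos k)] at h6
    exact h6
  -- constants
  set C : ℝ := 2 * max K K' with hC
  have hKC : 28 / 27 * K' ≤ C := by have := le_max_right K K'; simp only [hC]; linarith
  have hKC' : 27 / 26 * K ≤ C := by have := le_max_left K K'; simp only [hC]; linarith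
  have hCpos : 0 < C := by linarith
  have er : ∀ᶠ k in atTop, C * r k < 1 := by
    have : Tendsto (fun k => C * r k) atTop (𝓝 (C * 0)) := hr.const_mul C
    rw [mul_zero] at this
    exact this (Iio_mem_nhds one_pos)
  obtain ⟨k₀, hk₀⟩ := eventually_atTop.1 er
  have ey : ∀ᶠ k in atTop, C * D.y k < D.y k₀ := by
    have : Tendsto (fun k => C * D.y k) atTop (𝓝 (C * 0)) := D.tendsto_y.const_mul C
    rw [mul_zero] at this
    exact this (Iio_mem_nhds (D.y_pos k₀))
  refine ⟨K, ?_⟩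
  filter_upwards [e1, e2, e4, ey, eventually_ge_atTop k₀] with k k1 k2 k4 ky kk
  obtain ⟨j, hj, hjs⟩ := D.mem_Z_iff.1 ((D.isImage_Z hh k1).2 (hwZ k))
  have hb := D.strip_bounds hj
  have hyj := D.y_pos j
  have hyk := D.y_pos k
  have hpos : 0 < h (w k) 2 := by linarith
  rw [abs_of_pos hpos] at k4
  have h2 : h (w k) 2 ≤ K * D.y k := by
    have h6 : dist (h (w k) 2) (h 0 2) ≤ dist (h (w k)) (h 0) := dist_le_pi_dist _ _ 2
    rw [hq2, dist_zero_right, Real.norm_eq_abs, abs_of_pos hpos] at h6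
    linarith
  have hjk : D.y j ≤ C * D.y k := by
    have : 27 / 26 * K * D.y k ≤ C * D.y k := by gcongr
    nlinarith
  have hkj : D.y k ≤ C * D.y j := by
    have h7 : 28 / 27 * K' * D.y j ≤ C * D.y j := by gcongr
    have h8 : K' * h (w k) 2 ≤ K' * (28 / 27 * D.y j) := by
      have : 0 ≤ K' := by linarith
      gcongr
      exact hb.2.le
    nlinarith
  have hjk' : j = k := by
    rcases lt_trichotomy j k with hlt | heq | hgt
    · exfalso
      -- `y k ≤ y (j+1) ≤ r j * y j`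
      have h9 : D.y k ≤ D.y (j + 1) := D.y_anti hlt
      have h10 := hy j
      by_cases hj0 : k₀ ≤ j
      · have h11 := hk₀ j hj0
        have h12 : C * D.y k ≤ C * (r j * D.y j) := by gcongr; linarith
        nlinarith
      · push Not at hj0
        have h11 : D.y k₀ ≤ D.y j := D.y_anti hj0.le
        linarith
    · exact heq
    · exfalso
      have h9 : D.y j ≤ D.y (k + 1) := D.y_anti hgt
      have h10 := hy k
      have h11 := hk₀ k kk
      have h12 : C * D.y j ≤ C * (r k * D.y k) := by gcongr; linarith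
      nlinarith
  subst hjk'
  -- the coordinate `0` of the image is a half period
  have hε := D.ε_pos j
  rw [Real.sin_eq_zero_iff] at hjs
  obtain ⟨m, hm⟩ := hjs
  have h13 : h (w j) 0 = m * (D.ε j / 2) := by
    have hπ := Real.pi_pos
    have h14 : (m : ℝ) * Real.pi * D.ε j = 2 * Real.pi * h (w j) 0 := by
      rw [hm]; field_simp
    have h15 : Real.pi * (h (w j) 0 - m * (D.ε j / 2)) = 0 := by linear_combination (-1 / 2) * h14
    rcases mul_eq_zero.1 h15 with h | h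
    · exact absurd h hπ.ne'
    · linarith
  refine ⟨m, ?_⟩
  rw [← h13]
  have h6 : dist (h (w j) 0) (h 0 0) ≤ dist (h (w j)) (h 0) := dist_le_pi_dist _ _ 0
  rw [Real.dist_eq, abs_sub_comm] at h6
  linarith

end Data

end Pool.Agent.Lib.MP_430a41_an
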