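import Pool.Agent.Lib.MP_430a41_an.Top

set_option autoImplicit false

open Set Filter Topology
open scoped ContDiff

/-! Shears which are CR diffeomorphisms. -/

namespace Pool.Agent.Lib.MP_430a41_an

/-- The shear `(p₀ + u(p₂), p₁ + s, p₂)`. -/
noncomputable def shear (u : ℝ → ℝ) (s : ℝ) (p : E 3) : E 3 :=
  p + u (p 2) • (Pi.single 0 1 : E 3) + s • (Pi.single 1 1 : E 3)

lemma shear_zero (u : ℝ → ℝ) (s : ℝ) (p : E 3) : shear u s p 0 = p 0 + u (p 2) := by simp [shear]

lemma shear_two (u : ℝ → ℝ) (s : ℝ) (p : E 3) : shear u s p 2 = p 2 := by simp [shear]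

lemma contDiff_shear {u : ℝ → ℝ} (hu : ContDiff ℝ ∞ u) (s : ℝ) : ContDiff ℝ ∞ (shear u s) := by
  unfold shear
  exact (contDiff_id.add ((hu.comp (contDiff_apply ℝ ℝ 2)).smul contDiff_const)).add contDiff_const

lemma shear_neg (u : ℝ → ℝ) (s : ℝ) (p : E 3) : shear (fun v => -u v) (-s) (shear u s p) = p := by
  rw [shear, shear_two, shear]
  module

lemma fderiv_shear {u : ℝ → ℝ} (hu : ContDiff ℝ ∞ u) (s : ℝ) (p v : E 3) :
    fderiv ℝ (shear u s) p v = v + (deriv u (p 2) * v 2) • (Pi.single 0 1 : E 3) := by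
  have h1 : HasDerivAt u (deriv u (p 2)) (p 2) :=
    ((hu.differentiable (by simp)) (p 2)).hasDerivAt
  have h2 : HasFDerivAt (fun p : E 3 => p 2)
      (ContinuousLinearMap.proj (R := ℝ) (φ := fun _ : Fin 3 => ℝ) 2) p :=
    (ContinuousLinearMap.proj (R := ℝ) (φ := fun _ : Fin 3 => ℝ) 2).hasFDerivAt
  have h3 : HasFDerivAt (fun p : E 3 => u (p 2)) (deriv u (p 2) •
      (ContinuousLinearMap.proj (R := ℝ) (φ := fun _ : Fin 3 => ℝ) 2)) p :=
    h1.comp_hasFDerivAt p h2
  have h4 : HasFDerivAt (shear u s) (ContinuousLinearMap.id ℝ (E 3) + (deriv u (p 2) •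
      (ContinuousLinearMap.proj (R := ℝ) (φ := fun _ : Fin 3 => ℝ) 2)).smulRight
      (Pi.single 0 1 : E 3)) p :=
    ((hasFDerivAt_id p).add (h3.smul_const _)).add_const _
  rw [h4.fderiv]
  simp

namespace Data

variable (D : Data)

lemma c_shear {u : ℝ → ℝ} (hk : ∀ k, ∃ m : ℤ, ∀ v ∈ D.strip k, u v = m * D.ε k) (s : ℝ)
    (p : E 3) : D.c (shear u s p) = D.c p := by
  by_cases hs : ∃ k, p 2 ∈ D.strip k
  · obtain ⟨k, hp⟩ := hs
    obtain ⟨m, hm⟩ := hk k
    rw [D.c_of_strip (k := k) (by rw [shear_two]; exact hp), D.c_of_strip hp, shear_zero,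
      shear_two, hm _ hp]
    have hε := D.ε_pos k
    have : 2 * Real.pi / D.ε k * (p 0 + m * D.ε k) = 2 * Real.pi / D.ε k * p 0 +
        m * (2 * Real.pi) := by field_simp
    rw [this, Real.cos_add_int_mul_two_pi]
  · push Not at hs
    rw [D.c_of_not_strip hs, D.c_of_not_strip]
    intro k
    rw [shear_two]
    exact hs k

lemma c_mul_deriv {u : ℝ → ℝ} (hk : ∀ k, ∃ m : ℤ, ∀ v ∈ D.strip k, u v = m * D.ε k)
    (p : E 3) : D.c p * deriv u (p 2) = 0 := by
  by_cases hs : ∃ k, p 2 ∈ D.strip k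
  · obtain ⟨k, hp⟩ := hs
    obtain ⟨m, hm⟩ := hk k
    have hopen : IsOpen (D.strip k) := isOpen_lt (by fun_prop) continuous_const
    have : u =ᶠ[𝓝 (p 2)] fun _ => m * D.ε k := by
      filter_upwards [hopen.mem_nhds hp] with v hv using hm v hv
    rw [this.deriv_eq]
    simp
  · push Not at hs
    rw [D.c_of_not_strip hs, zero_mul]

/-- Shears translating each strip by a multiple of its period are CR diffeomorphisms. -/
lemma shear_isCR {u : ℝ → ℝ} (hu : ContDiff ℝ ∞ u)
    (hk : ∀ k, ∃ m : ℤ, ∀ v ∈ D.strip k, u v = m * D.ε k) (s : ℝ) :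
    ∃ h : OpenPartialHomeomorph (E 3) (E 3), IsCRDiffeo D.S h ∧ h.source = univ ∧
      ∀ p, h p = shear u s p := by
  let e : E 3 ≃ₜ E 3 :=
    { toFun := shear u s
      invFun := shear (fun v => -u v) (-s)
      left_inv := shear_neg u s
      right_inv := by
        intro p
        have := shear_neg (fun v => -u v) (-s) p
        simpa using this
      continuous_toFun := (contDiff_shear hu s).continuous
      continuous_invFun := (contDiff_shear hu.neg (-s)).continuous }
  refine ⟨e.toOpenPartialHomeomorph, ⟨(contDiff_shear hu s).contDiffOn,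
    (contDiff_shear hu.neg (-s)).contDiffOn, ?_⟩, rfl, fun p => rfl⟩
  intro x _
  have hfun : (e.toOpenPartialHomeomorph : E 3 → E 3) = shear u s := rfl
  rw [hfun, S_H, S_H, Submodule.map_span, Set.image_singleton]
  have h1 : D.L (shear u s x) = D.L x := by
    simp only [L, D.c_shear hk]
  have h2 : (jac (shear u s) x).mulVecLin (D.L x) = D.L x := by
    have hj : ∀ i j, jac (shear u s) x i j = (if i = j then 1 else 0) +
        (if j = 2 then (if i = 0 then ((deriv u (x 2) : ℝ) : ℂ) else 0) else 0) := by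
      intro i j
      simp only [jac, fderiv_shear hu]
      fin_cases i <;> fin_cases j <;> simp
    ext i
    simp only [Matrix.mulVecLin_apply, Matrix.mulVec, dotProduct, Fin.sum_univ_three, hj, L,
      Matrix.cons_val_zero, Matrix.cons_val_one, Matrix.cons_val]
    fin_cases i
    · rcases mul_eq_zero.1 (D.c_mul_deriv hk x) with h | h <;> simp [h]
    · simp
    · simp
  rw [h1, h2]

/-- If `t` is approximated well enough by multiples of the periods, translation by `t` along the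
plane `{x 2 = 0}` is induced by a CR diffeomorphism. -/
lemma mem_orbit_of_approx {t : ℝ} (m : ℕ → ℤ) (θ : ℕ → ℝ)
    (hm : ∀ k, |m k * D.ε k - t| ≤ θ k) (hθ : ∀ i : ℕ, Summable fun k => θ k * (D.ρ k)⁻¹ ^ i)
    (s : ℝ) {p : E 3} (hp : p 2 = 0) :
    p + t • (Pi.single 0 1 : E 3) + s • (Pi.single 1 1 : E 3) ∈ orbit D.S p := by
  set u : ℝ → ℝ := fun v => t + ∑' k, (m k * D.ε k - t) * ψ ((v - D.y k) / D.ρ k) with hu
  have hψ : BD (ψ : ℝ → ℝ) := BD.of_hasCompactSupport ψ.contDiff ψ.hasCompactSupport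
  have hus : ContDiff ℝ ∞ u :=
    contDiff_const.add (contDiff_scaled_series hψ _ D.y D.ρ θ D.ρ_pos hm hθ)
  have hk : ∀ k, ∃ m : ℤ, ∀ v ∈ D.strip k, u v = m * D.ε k := by
    intro k
    refine ⟨m k, fun v hv => ?_⟩
    have h1 : ∑' j, (m j * D.ε j - t) * ψ ((v - D.y j) / D.ρ j) = m k * D.ε k - t := by
      rw [tsum_eq_single k]
      · have hv' : |v - D.y k| < D.ρ k := hv
        rw [ψ_eq_one, mul_one]
        rw [abs_div, abs_of_pos (D.ρ_pos k), div_le_one (D.ρ_pos k)]
        exact hv'.le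
      · intro j hj
        rw [ψ_eq_zero, mul_zero]
        rw [abs_div, abs_of_pos (D.ρ_pos j), le_div_iff₀ (D.ρ_pos j)]
        by_contra hlt
        push Not at hlt
        exact hj (D.wide_unique hlt (D.wide_of_strip hv))
    simp only [hu, h1]
    ring
  have hu0 : u 0 = t := by
    simp only [hu]
    have : ∀ k, (m k * D.ε k - t) * ψ ((0 - D.y k) / D.ρ k) = 0 := by
      intro k
      rw [ψ_eq_zero, mul_zero]
      have h1 := D.y_pos k
      rw [abs_div, abs_of_pos (D.ρ_pos k), le_div_iff₀ (D.ρ_pos k), D.ρ_eq, zero_sub, abs_neg,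
        abs_of_pos h1]
      linarith
    rw [tsum_congr this, tsum_zero, add_zero]
  obtain ⟨h, hh, hsrc, hval⟩ := D.shear_isCR hus hk s
  refine ⟨h, hh, by rw [hsrc]; exact mem_univ _, ?_⟩
  rw [hval, shear, hp, hu0]

end Data

end Pool.Agent.Lib.MP_430a41_an
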