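import Mathlib

set_option autoImplicit false

open Set Filter Topology
open scoped ContDiff

/-! Smoothness of series of functions with bounded derivatives. -/

namespace Pool.Agent.Lib.MP_430a41_an

variable {F : Type} [NormedAddCommGroup F] [NormedSpace ℝ F]

/-- Smooth functions all of whose derivatives are bounded. -/
def BD {F : Type} [NormedAddCommGroup F] [NormedSpace ℝ F] (f : F → ℝ) : Prop :=
  ContDiff ℝ ∞ f ∧ ∀ i : ℕ, ∃ C : ℝ, ∀ x, ‖iteratedFDeriv ℝ i f x‖ ≤ C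

lemma BD.mul {f g : F → ℝ} (hf : BD f) (hg : BD g) : BD (fun x => f x * g x) := by
  refine ⟨hf.1.mul hg.1, fun i => ?_⟩
  choose C hC using hf.2
  choose D hD using hg.2
  refine ⟨∑ j ∈ Finset.range (i + 1), (i.choose j : ℝ) * C j * D (i - j), fun x => ?_⟩
  refine (norm_iteratedFDeriv_mul_le (N := ∞) hf.1 hg.1 x (by exact_mod_cast le_top)).trans ?_
  refine Finset.sum_le_sum fun j _ => ?_
  have h1 := hC j x
  have h2 := hD (i - j) x
  have h0 : 0 ≤ ‖iteratedFDeriv ℝ j f x‖ := norm_nonneg _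
  have h0' : 0 ≤ ‖iteratedFDeriv ℝ (i - j) g x‖ := norm_nonneg _
  have h3 : (0 : ℝ) ≤ C j := h0.trans h1
  gcongr

lemma norm_iteratedFDeriv_comp_clm_le {f : ℝ → ℝ} (hf : ContDiff ℝ ∞ f) (ℓ : F →L[ℝ] ℝ) (i : ℕ)
    (x : F) : ‖iteratedFDeriv ℝ i (fun x => f (ℓ x)) x‖ ≤ ‖iteratedFDeriv ℝ i f (ℓ x)‖ * ‖ℓ‖ ^ i := by
  have h := ℓ.iteratedFDeriv_comp_right hf x (i := i) (by exact_mod_cast le_top)
  have h' : iteratedFDeriv ℝ i (fun x => f (ℓ x)) x = _ := h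
  rw [h']
  refine (ContinuousMultilinearMap.norm_compContinuousLinearMap_le _ _).trans ?_
  simp

lemma BD.comp_clm {f : ℝ → ℝ} (hf : BD f) (ℓ : F →L[ℝ] ℝ) : BD (fun x => f (ℓ x)) := by
  refine ⟨hf.1.comp ℓ.contDiff, fun i => ?_⟩
  obtain ⟨C, hC⟩ := hf.2 i
  refine ⟨C * ‖ℓ‖ ^ i, fun x => ?_⟩
  refine (norm_iteratedFDeriv_comp_clm_le hf.1 ℓ i x).trans ?_
  gcongr
  exact hC _

lemma BD.of_hasCompactSupport {f : ℝ → ℝ} (hf : ContDiff ℝ ∞ f) (hc : HasCompactSupport f) :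
    BD f := by
  refine ⟨hf, fun i => ?_⟩
  have h1 : Continuous (iteratedFDeriv ℝ i f) :=
    hf.continuous_iteratedFDeriv (by exact_mod_cast le_top)
  exact h1.bounded_above_of_compact_support (hc.iteratedFDeriv i)

lemma BD.cos : BD Real.cos := by
  refine ⟨Real.contDiff_cos, fun i => ⟨1, fun x => ?_⟩⟩
  rw [norm_iteratedFDeriv_eq_norm_iteratedDeriv]
  exact Real.abs_iteratedDeriv_cos_le_one i x

lemma BD.const (a : ℝ) : BD (fun _ : F => a) := by
  refine ⟨contDiff_const, fun i => ⟨|a|, fun x => ?_⟩⟩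
  rcases Nat.eq_zero_or_pos i with rfl | hi
  · rw [norm_iteratedFDeriv_zero, Real.norm_eq_abs]
  · rw [iteratedFDeriv_const_of_ne hi.ne']
    simp

lemma BD.add {f g : F → ℝ} (hf : BD f) (hg : BD g) : BD (fun x => f x + g x) := by
  refine ⟨hf.1.add hg.1, fun i => ?_⟩
  obtain ⟨C, hC⟩ := hf.2 i
  obtain ⟨C', hC'⟩ := hg.2 i
  refine ⟨C + C', fun x => ?_⟩
  have h : iteratedFDeriv ℝ i (fun x => f x + g x) x
      = iteratedFDeriv ℝ i f x + iteratedFDeriv ℝ i g x :=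
    iteratedFDeriv_add_apply ((hf.1.of_le (by exact_mod_cast le_top)).contDiffAt)
      ((hg.1.of_le (by exact_mod_cast le_top)).contDiffAt)
  rw [h]
  exact (norm_add_le _ _).trans (add_le_add (hC x) (hC' x))

/-- Any sequence of functions with bounded derivatives has a smooth sum after multiplication with
suitable positive constants. -/
lemma exists_smooth_series (G : ℕ → F → ℝ) (hG : ∀ k, BD (G k)) :
    ∃ α : ℕ → ℝ, (∀ k, 0 < α k) ∧ ContDiff ℝ ∞ (fun x => ∑' k, α k * G k x) := by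
  choose C hC using fun k => (hG k).2
  have hC0 : ∀ k i, 0 ≤ C k i := fun k i => (norm_nonneg _).trans (hC k i 0)
  set B : ℕ → ℝ := fun k => 1 + ∑ i ∈ Finset.range (k + 1), C k i with hB
  have hBpos : ∀ k, 0 < B k := fun k => by
    have : 0 ≤ ∑ i ∈ Finset.range (k + 1), C k i := Finset.sum_nonneg fun i _ => hC0 k i
    simp only [hB]; linarith
  refine ⟨fun k => (1 / 2) ^ k / B k, fun k => div_pos (by positivity) (hBpos k), ?_⟩
  refine contDiff_tsum_of_eventually (N := ⊤) (v := fun _ k => (1 / 2 : ℝ) ^ k) ?_ ?_ ?_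
  · intro k
    exact contDiff_const.mul (hG k).1
  · intro i _
    exact summable_geometric_two
  · intro i _
    rw [Nat.cofinite_eq_atTop]
    filter_upwards [eventually_ge_atTop i] with k hk x
    have e : (fun x => (1 / 2) ^ k / B k * G k x) = fun x => ((1 / 2) ^ k / B k) • G k x := rfl
    rw [e]
    have h1 : iteratedFDeriv ℝ i (fun x => ((1 / 2 : ℝ) ^ k / B k) • G k x) x
        = ((1 / 2 : ℝ) ^ k / B k) • iteratedFDeriv ℝ i (G k) x := by
      refine iteratedFDeriv_const_smul_apply' ?_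
      exact (((hG k).1.of_le (by exact_mod_cast le_top)).contDiffAt)
    rw [h1, norm_smul, Real.norm_eq_abs, abs_of_pos (div_pos (by positivity) (hBpos k))]
    have h2 : ‖iteratedFDeriv ℝ i (G k) x‖ ≤ B k := by
      refine (hC k i x).trans ?_
      have : C k i ≤ ∑ i ∈ Finset.range (k + 1), C k i :=
        Finset.single_le_sum (f := fun i => C k i) (fun i _ => hC0 k i)
          (Finset.mem_range.2 (by omega))
      simp only [hB]; linarith
    calc (1 / 2 : ℝ) ^ k / B k * ‖iteratedFDeriv ℝ i (G k) x‖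
        ≤ (1 / 2 : ℝ) ^ k / B k * B k := by
          have : 0 < (1 / 2 : ℝ) ^ k / B k := div_pos (by positivity) (hBpos k)
          gcongr
      _ = (1 / 2 : ℝ) ^ k := div_mul_cancel₀ _ (hBpos k).ne'

/-- Derivative bound for scaled and translated functions. -/
lemma norm_iteratedFDeriv_scaled_le {ψ : ℝ → ℝ} (hψ : ContDiff ℝ ∞ ψ) {i : ℕ} {C : ℝ}
    (hC : ∀ x, ‖iteratedFDeriv ℝ i ψ x‖ ≤ C) (τ a ρ : ℝ) (hρ : 0 < ρ) (x : ℝ) :
    ‖iteratedFDeriv ℝ i (fun y => τ * ψ ((y - a) / ρ)) x‖ ≤ |τ| * (C * (ρ⁻¹) ^ i) := by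
  have hg : ContDiff ℝ ∞ (fun x => ψ (x + -(a / ρ))) := hψ.comp (contDiff_id.add contDiff_const)
  set ℓ : ℝ →L[ℝ] ℝ := (ρ⁻¹) • ContinuousLinearMap.id ℝ ℝ with hℓ
  have e : (fun y => τ * ψ ((y - a) / ρ)) = fun y => τ • (fun x => ψ (x + -(a / ρ))) (ℓ y) := by
    ext y
    simp only [hℓ, smul_apply, ContinuousLinearMap.id_apply, smul_eq_mul]
    congr 2
    field_simp
    ring
  have hcomp : ContDiff ℝ ∞ (fun y => (fun x => ψ (x + -(a / ρ))) (ℓ y)) :=
    hg.comp ℓ.contDiff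
  rw [e, iteratedFDeriv_const_smul_apply' ((hcomp.of_le (by exact_mod_cast le_top)).contDiffAt),
    norm_smul, Real.norm_eq_abs]
  refine mul_le_mul_of_nonneg_left ?_ (abs_nonneg _)
  refine (norm_iteratedFDeriv_comp_clm_le hg ℓ i x).trans ?_
  have h1 : ‖iteratedFDeriv ℝ i (fun x => ψ (x + -(a / ρ))) (ℓ x)‖ ≤ C := by
    rw [iteratedFDeriv_comp_add_right]; exact hC _
  have h2 : ‖ℓ‖ ≤ ρ⁻¹ := by
    rw [hℓ, norm_smul, Real.norm_eq_abs, abs_of_pos (inv_pos.2 hρ)]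
    have := ContinuousLinearMap.norm_id_le (𝕜 := ℝ) (E := ℝ)
    have h3 : 0 < ρ⁻¹ := inv_pos.2 hρ
    nlinarith
  have h0 : 0 ≤ C := (norm_nonneg _).trans (hC 0)
  gcongr

/-- Smoothness of `∑ τ_k ψ((y - a_k)/ρ_k)`. -/
lemma contDiff_scaled_series {ψ : ℝ → ℝ} (hψ : BD ψ) (τ a ρ θ : ℕ → ℝ) (hρ : ∀ k, 0 < ρ k)
    (hτ : ∀ k, |τ k| ≤ θ k) (hθ : ∀ i : ℕ, Summable fun k => θ k * (ρ k)⁻¹ ^ i) :
    ContDiff ℝ ∞ (fun y => ∑' k, τ k * ψ ((y - a k) / ρ k)) := by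
  choose C hC using hψ.2
  refine contDiff_tsum (N := ⊤) (v := fun i k => C i * (θ k * (ρ k)⁻¹ ^ i)) ?_ ?_ ?_
  · intro k
    exact contDiff_const.mul (hψ.1.comp ((contDiff_id.sub contDiff_const).div_const _))
  · intro i _
    exact (hθ i).mul_left (C i)
  · intro i k x _
    refine (norm_iteratedFDeriv_scaled_le hψ.1 (hC i) (τ k) (a k) (ρ k) (hρ k) x).trans ?_
    have h0 : 0 ≤ C i := (norm_nonneg _).trans (hC i 0)
    have h1 : 0 ≤ (ρ k)⁻¹ ^ i := by have := hρ k; positivity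
    calc |τ k| * (C i * (ρ k)⁻¹ ^ i) ≤ θ k * (C i * (ρ k)⁻¹ ^ i) := by
          have := hτ k; gcongr
      _ = C i * (θ k * (ρ k)⁻¹ ^ i) := by ring

end Pool.Agent.Lib.MP_430a41_an
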