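import Pool.Agent.Lib.MP_430a41_an.Defs
import Pool.Agent.Lib.MP_430a41_an.Smooth

set_option autoImplicit false

open Set Filter Topology
open scoped ContDiff

/-! The parameters of the construction, and the function `c`. -/

namespace Pool.Agent.Lib.MP_430a41_an

/-- Heights `y`, half-widths `ρ` and lattice constants `ε` of the strips. -/
structure Par where
  y : ℕ → ℝ
  ρ : ℕ → ℝ
  ε : ℕ → ℝ
  y_pos : ∀ k, 0 < y k
  y_succ : ∀ k, y (k + 1) ≤ y k / 27
  ρ_eq : ∀ k, ρ k = y k / 27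
  ε_pos : ∀ k, 0 < ε k

/-- The cut-off profile of a strip. -/
noncomputable def φ : ContDiffBump (0 : ℝ) := ⟨1 / 2, 1, by norm_num, by norm_num⟩

/-- A wider cut-off profile. -/
noncomputable def ψ : ContDiffBump (0 : ℝ) := ⟨1, 2, by norm_num, by norm_num⟩

lemma φ_pos_iff (x : ℝ) : φ x ≠ 0 ↔ |x| < 1 := by
  have h : Function.support (φ : ℝ → ℝ) = Metric.ball 0 1 := φ.support_eq
  have h2 : x ∈ Function.support (φ : ℝ → ℝ) ↔ x ∈ Metric.ball (0 : ℝ) 1 := by rw [h]
  rw [Function.mem_support, mem_ball_zero_iff, Real.norm_eq_abs] at h2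
  exact h2

lemma ψ_eq_one {x : ℝ} (hx : |x| ≤ 1) : ψ x = 1 := by
  refine ψ.one_of_mem_closedBall ?_
  rw [mem_closedBall_zero_iff, Real.norm_eq_abs]
  exact hx

lemma ψ_eq_zero {x : ℝ} (hx : 2 ≤ |x|) : ψ x = 0 := by
  refine ψ.zero_of_le_dist ?_
  rw [dist_zero_right, Real.norm_eq_abs]
  exact hx

namespace Par

variable (P : Par)

lemma ρ_pos (k : ℕ) : 0 < P.ρ k := by
  rw [P.ρ_eq]; have := P.y_pos k; positivity

lemma y_lt {j k : ℕ} (h : j < k) : P.y k ≤ P.y j / 27 := by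
  induction k, h using Nat.le_induction with
  | base => exact P.y_succ j
  | succ n _ ih =>
    have h1 := P.y_succ n
    have h2 := P.y_pos n
    have h3 := P.y_pos j
    linarith

lemma y_anti : Antitone P.y := by
  intro j k h
  rcases h.lt_or_eq with h | rfl
  · have := P.y_lt h; have := P.y_pos j; linarith
  · exact le_rfl

lemma y_le_geom (k : ℕ) : P.y k ≤ P.y 0 * (1 / 27) ^ k := by
  induction k with
  | zero => simp
  | succ n ih => have := P.y_succ n; rw [pow_succ]; linarith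

lemma tendsto_y : Tendsto P.y atTop (𝓝 0) := by
  have h : Tendsto (fun k => P.y 0 * (1 / 27 : ℝ) ^ k) atTop (𝓝 (P.y 0 * 0)) :=
    (tendsto_pow_atTop_nhds_zero_of_lt_one (by norm_num) (by norm_num)).const_mul _
  rw [mul_zero] at h
  exact squeeze_zero (fun k => (P.y_pos k).le) P.y_le_geom h

/-- The `k`-th strip, as a set of heights. -/
def strip (k : ℕ) : Set ℝ := {v | |v - P.y k| < P.ρ k}

lemma wide_unique {v : ℝ} {j k : ℕ} (hj : |v - P.y j| < 2 * P.ρ j) (hk : |v - P.y k| < 2 * P.ρ k) :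
    j = k := by
  rw [P.ρ_eq] at hj hk
  rw [abs_lt] at hj hk
  have h1 := P.y_pos j
  have h2 := P.y_pos k
  rcases lt_trichotomy j k with h | h | h
  · have := P.y_lt h; exfalso; linarith
  · exact h
  · have := P.y_lt h; exfalso; linarith

lemma wide_of_strip {v : ℝ} {k : ℕ} (h : v ∈ P.strip k) : |v - P.y k| < 2 * P.ρ k := by
  have := P.ρ_pos k
  have h' : |v - P.y k| < P.ρ k := h
  linarith

lemma strip_unique {v : ℝ} {j k : ℕ} (hj : v ∈ P.strip j) (hk : v ∈ P.strip k) : j = k :=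
  P.wide_unique (P.wide_of_strip hj) (P.wide_of_strip hk)

lemma strip_bounds {v : ℝ} {k : ℕ} (h : v ∈ P.strip k) :
    26 / 27 * P.y k < v ∧ v < 28 / 27 * P.y k := by
  have h' : |v - P.y k| < P.ρ k := h
  rw [P.ρ_eq, abs_lt] at h'
  constructor <;> linarith

lemma mem_strip_iff_φ {v : ℝ} {k : ℕ} : φ ((v - P.y k) / P.ρ k) ≠ 0 ↔ v ∈ P.strip k := by
  rw [φ_pos_iff, abs_div, abs_of_pos (P.ρ_pos k), div_lt_one (P.ρ_pos k)]
  rfl

/-- The union of the strips, as a set of heights. -/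
def strips : Set ℝ := ⋃ k, P.strip k

end Par

/-- The parameters together with amplitudes making `c` smooth. -/
structure Data extends Par where
  α : ℕ → ℝ
  α_pos : ∀ k, 0 < α k
  smooth : ContDiff ℝ ∞ (fun p : E 3 => ∑' k, α k *
    ((1 + Real.cos (2 * Real.pi / ε k * p 0)) * φ ((p 2 - y k) / ρ k)))

lemma exists_data (P : Par) : ∃ D : Data, D.toPar = P := by
  have hG : ∀ k, BD (fun p : E 3 =>
      (1 + Real.cos (2 * Real.pi / P.ε k * p 0)) * φ ((p 2 - P.y k) / P.ρ k)) := by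
    intro k
    refine BD.mul ?_ ?_
    · have h := BD.cos.comp_clm ((2 * Real.pi / P.ε k) •
        (ContinuousLinearMap.proj (R := ℝ) (φ := fun _ : Fin 3 => ℝ) 0))
      exact (BD.const 1).add h
    · have h1 : BD (fun v : ℝ => φ ((v - P.y k) / P.ρ k)) := by
        refine BD.of_hasCompactSupport ?_ ?_
        · exact φ.contDiff.comp ((contDiff_id.sub contDiff_const).div_const _)
        · refine HasCompactSupport.intro (K := Metric.closedBall (P.y k) (P.ρ k))
            (isCompact_closedBall _ _) ?_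
          intro v hv
          by_contra hne
          have := P.mem_strip_iff_φ.1 hne
          have h' : |v - P.y k| < P.ρ k := this
          apply hv
          rw [Metric.mem_closedBall, Real.dist_eq]
          exact h'.le
      exact h1.comp_clm (ContinuousLinearMap.proj (R := ℝ) (φ := fun _ : Fin 3 => ℝ) 2)
  obtain ⟨α, hα, hs⟩ := exists_smooth_series _ hG
  exact ⟨⟨P, α, hα, hs⟩, rfl⟩

namespace Data

variable (D : Data)

/-- The function `c`. -/
noncomputable def c (p : E 3) : ℝ :=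
  ∑' k, D.α k * ((1 + Real.cos (2 * Real.pi / D.ε k * p 0)) * φ ((p 2 - D.y k) / D.ρ k))

lemma c_smooth : ContDiff ℝ ∞ D.c := D.smooth

lemma c_nonneg (p : E 3) : 0 ≤ D.c p := by
  refine tsum_nonneg fun k => ?_
  have h1 := (D.α_pos k).le
  have h2 : 0 ≤ 1 + Real.cos (2 * Real.pi / D.ε k * p 0) := by
    have := Real.neg_one_le_cos (2 * Real.pi / D.ε k * p 0); linarith
  have h3 : 0 ≤ φ ((p 2 - D.y k) / D.ρ k) := φ.nonneg
  positivity

lemma c_of_strip {p : E 3} {k : ℕ} (h : p 2 ∈ D.strip k) :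
    D.c p = D.α k * ((1 + Real.cos (2 * Real.pi / D.ε k * p 0)) * φ ((p 2 - D.y k) / D.ρ k)) := by
  unfold c
  rw [tsum_eq_single k]
  intro j hj
  have : φ ((p 2 - D.y j) / D.ρ j) = 0 := by
    by_contra hne
    exact hj (D.strip_unique (D.mem_strip_iff_φ.1 hne) h)
  rw [this]; ring

lemma c_of_not_strip {p : E 3} (h : ∀ k, p 2 ∉ D.strip k) : D.c p = 0 := by
  unfold c
  have : ∀ k, D.α k * ((1 + Real.cos (2 * Real.pi / D.ε k * p 0)) * φ ((p 2 - D.y k) / D.ρ k)) = 0 := by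
    intro k
    have : φ ((p 2 - D.y k) / D.ρ k) = 0 := by
      by_contra hne
      exact h k (D.mem_strip_iff_φ.1 hne)
    rw [this]; ring
  simp [this]

/-- `c` depends only on the coordinates `0` and `2`. -/
lemma c_congr {p q : E 3} (h0 : p 0 = q 0) (h2 : p 2 = q 2) : D.c p = D.c q := by
  unfold c; rw [h0, h2]

lemma fderiv_c_one (p : E 3) : fderiv ℝ D.c p (Pi.single 1 1) = 0 := by
  have hd : DifferentiableAt ℝ D.c p := (D.c_smooth.differentiable (by simp)) p
  rw [← hd.lineDeriv_eq_fderiv, lineDeriv]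
  have : (fun t : ℝ => D.c (p + t • Pi.single 1 1)) = fun _ => D.c p := by
    ext t
    apply D.c_congr <;> simp
  rw [this]; simp

lemma fderiv_c_zero_of_strip {p : E 3} {k : ℕ} (h : p 2 ∈ D.strip k) :
    fderiv ℝ D.c p (Pi.single 0 1) = -(D.α k * (2 * Real.pi / D.ε k) *
      φ ((p 2 - D.y k) / D.ρ k)) * Real.sin (2 * Real.pi / D.ε k * p 0) := by
  have hd : DifferentiableAt ℝ D.c p := (D.c_smooth.differentiable (by simp)) p
  rw [← hd.lineDeriv_eq_fderiv, lineDeriv]
  have e : (fun t : ℝ => D.c (p + t • Pi.single 0 1)) = fun t : ℝ => D.α k *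
      ((1 + Real.cos (2 * Real.pi / D.ε k * (p 0 + t))) * φ ((p 2 - D.y k) / D.ρ k)) := by
    ext t
    have h2 : (p + t • (Pi.single 0 1 : E 3)) 2 = p 2 := by simp
    have h0 : (p + t • (Pi.single 0 1 : E 3)) 0 = p 0 + t := by simp
    rw [D.c_of_strip (by rw [h2]; exact h), h2, h0]
  rw [e]
  have hder : HasDerivAt (fun t : ℝ => D.α k *
      ((1 + Real.cos (2 * Real.pi / D.ε k * (p 0 + t))) * φ ((p 2 - D.y k) / D.ρ k)))
      (D.α k * ((-Real.sin (2 * Real.pi / D.ε k * (p 0 + 0)) * (2 * Real.pi / D.ε k * 1)) *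
        φ ((p 2 - D.y k) / D.ρ k))) 0 := by
    refine HasDerivAt.const_mul _ (HasDerivAt.mul_const ?_ _)
    refine (HasDerivAt.cos (HasDerivAt.const_mul _ ?_)).const_add 1
    exact (hasDerivAt_id' (0 : ℝ)).const_add (p 0)
  rw [hder.deriv, add_zero]
  ring

lemma fderiv_c_zero_of_not_strip {p : E 3} (h : ∀ k, p 2 ∉ D.strip k) :
    fderiv ℝ D.c p (Pi.single 0 1) = 0 := by
  have hd : DifferentiableAt ℝ D.c p := (D.c_smooth.differentiable (by simp)) p
  rw [← hd.lineDeriv_eq_fderiv, lineDeriv]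
  have : (fun t : ℝ => D.c (p + t • Pi.single 0 1)) = fun _ => 0 := by
    ext t
    apply D.c_of_not_strip
    simpa using h
  rw [this]; simp

/-- The set of points where the Levi form does not vanish: `∂_0 c ≠ 0`. -/
def N : Set (E 3) := {p | fderiv ℝ D.c p (Pi.single 0 1) ≠ 0}

lemma mem_N_iff {p : E 3} :
    p ∈ D.N ↔ ∃ k, p 2 ∈ D.strip k ∧ Real.sin (2 * Real.pi / D.ε k * p 0) ≠ 0 := by
  constructor
  · intro h
    by_cases hs : ∃ k, p 2 ∈ D.strip k
    · obtain ⟨k, hk⟩ := hs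
      refine ⟨k, hk, fun h0 => h ?_⟩
      rw [D.fderiv_c_zero_of_strip hk, h0, mul_zero]
    · push Not at hs
      exact absurd (D.fderiv_c_zero_of_not_strip hs) h
  · rintro ⟨k, hk, hsin⟩
    show fderiv ℝ D.c p (Pi.single 0 1) ≠ 0
    rw [D.fderiv_c_zero_of_strip hk]
    refine mul_ne_zero (neg_ne_zero.2 (mul_ne_zero (mul_ne_zero (D.α_pos k).ne' ?_) ?_)) hsin
    · have := D.ε_pos k
      have := Real.pi_pos
      positivity
    · exact D.mem_strip_iff_φ.2 hk

/-- The union of the open strips. -/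
def Ω : Set (E 3) := {p | p 2 ∈ D.strips}

lemma isOpen_Ω : IsOpen D.Ω := by
  have : IsOpen D.strips := by
    refine isOpen_iUnion fun k => ?_
    exact isOpen_lt (by fun_prop) continuous_const
  exact this.preimage (continuous_apply 2)

lemma N_subset_Ω : D.N ⊆ D.Ω := by
  intro p hp
  obtain ⟨k, hk, -⟩ := D.mem_N_iff.1 hp
  exact mem_iUnion.2 ⟨k, hk⟩

/-- The zeros of the Levi form inside the strips. -/
def Z : Set (E 3) := D.Ω \ D.N

lemma mem_Z_iff {p : E 3} :
    p ∈ D.Z ↔ ∃ k, p 2 ∈ D.strip k ∧ Real.sin (2 * Real.pi / D.ε k * p 0) = 0 := by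
  constructor
  · rintro ⟨h1, h2⟩
    obtain ⟨k, hk⟩ := mem_iUnion.1 h1
    refine ⟨k, hk, ?_⟩
    by_contra hne
    exact h2 (D.mem_N_iff.2 ⟨k, hk, hne⟩)
  · rintro ⟨k, hk, hsin⟩
    refine ⟨mem_iUnion.2 ⟨k, hk⟩, ?_⟩
    intro h
    obtain ⟨j, hj, hne⟩ := D.mem_N_iff.1 h
    rw [D.strip_unique hj hk] at hne
    exact hne hsin

end Data

end Pool.Agent.Lib.MP_430a41_an
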