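import Pool.Agent.Lib.MP_430a41_an.Inv

set_option autoImplicit false

open Set Filter Topology
open scoped ContDiff

/-! Topological consequences: `Ω`, `Z` and the plane `{x 2 = 0}` are invariant. -/

namespace Pool.Agent.Lib.MP_430a41_an

namespace Data

variable (D : Data)

lemma Ω_subset_closure_N : D.Ω ⊆ closure D.N := by
  intro p hp
  by_cases hN : p ∈ D.N
  · exact subset_closure hN
  obtain ⟨k, hk, hsin⟩ := D.mem_Z_iff.1 ⟨hp, hN⟩
  have hε := D.ε_pos k
  have hπ := Real.pi_pos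
  set f : ℕ → E 3 := fun n => p + (D.ε k / (2 * Real.pi) * (1 / ((n : ℝ) + 1))) •
    (Pi.single 0 1 : E 3) with hf
  refine mem_closure_of_tendsto (f := f) (b := atTop) ?_ (Eventually.of_forall fun n => ?_)
  · have h1 : Tendsto (fun n : ℕ => p + (D.ε k / (2 * Real.pi) * (1 / ((n : ℝ) + 1))) •
        (Pi.single 0 1 : E 3)) atTop (𝓝 (p + (D.ε k / (2 * Real.pi) * 0) •
        (Pi.single 0 1 : E 3))) :=
      tendsto_const_nhds.add ((tendsto_one_div_add_atTop_nhds_zero_nat.const_mul _).smul_const _)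
    rw [mul_zero, zero_smul, add_zero] at h1
    exact h1
  · rw [mem_N_iff]
    have h2 : f n 2 = p 2 := by simp [hf]
    have h0 : f n 0 = p 0 + D.ε k / (2 * Real.pi) * (1 / ((n : ℝ) + 1)) := by simp [hf]
    refine ⟨k, by rw [h2]; exact hk, ?_⟩
    have e : 2 * Real.pi / D.ε k * f n 0 = 2 * Real.pi / D.ε k * p 0 + 1 / ((n : ℝ) + 1) := by
      rw [h0]; field_simp
    rw [e, Real.sin_add, hsin, zero_mul, zero_add]
    have hs1 : (0 : ℝ) < 1 / ((n : ℝ) + 1) := by positivity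
    have hs2 : 1 / ((n : ℝ) + 1) < Real.pi := by
      have : 1 / ((n : ℝ) + 1) ≤ 1 := by
        rw [div_le_one (by positivity)]; linarith [(Nat.cast_nonneg n : (0 : ℝ) ≤ n)]
      linarith [Real.pi_gt_three]
    have h3 : Real.sin (1 / ((n : ℝ) + 1)) ≠ 0 := (Real.sin_pos_of_pos_of_lt_pi hs1 hs2).ne'
    have h4 : Real.cos (2 * Real.pi / D.ε k * p 0) ≠ 0 := by
      intro h
      have := Real.sin_sq_add_cos_sq (2 * Real.pi / D.ε k * p 0)
      rw [h, hsin] at this
      norm_num at this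
    exact mul_ne_zero h4 h3

lemma Ω_pos {p : E 3} (hp : p ∈ D.Ω) : 0 < p 2 := by
  obtain ⟨k, hk⟩ := mem_iUnion.1 hp
  have := (D.strip_bounds hk).1
  have := D.y_pos k
  linarith

lemma one_strip {v : ℝ} (hv : 0 < v) :
    ∃ k, ∀ j w, 9 / 10 * v < w → w < 11 / 10 * v → w ∈ D.strip j → j = k := by
  by_cases h : ∃ k w, 9 / 10 * v < w ∧ w < 11 / 10 * v ∧ w ∈ D.strip k
  · obtain ⟨k, w, h1, h2, h3⟩ := h
    refine ⟨k, fun j w' h1' h2' h3' => ?_⟩
    have b := D.strip_bounds h3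
    have b' := D.strip_bounds h3'
    have hk := D.y_pos k
    have hj := D.y_pos j
    rcases lt_trichotomy j k with h | h | h
    · have := D.y_lt h; exfalso; linarith
    · exact h
    · have := D.y_lt h; exfalso; linarith
  · push Not at h
    exact ⟨0, fun j w h1 h2 h3 => absurd h3 (h j w h1 h2)⟩

lemma closure_Ω_bound {q : E 3} {k : ℕ} {v : ℝ}
    (hk : ∀ j w, 9 / 10 * v < w → w < 11 / 10 * v → w ∈ D.strip j → j = k)
    (hq : q ∈ closure D.Ω) (h1 : 9 / 10 * v < q 2) (h2 : q 2 < 11 / 10 * v) :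
    |q 2 - D.y k| ≤ D.ρ k := by
  have hU : IsOpen {x : E 3 | 9 / 10 * v < x 2 ∧ x 2 < 11 / 10 * v} :=
    (isOpen_lt continuous_const (continuous_apply 2)).inter
      (isOpen_lt (continuous_apply 2) continuous_const)
  have h3 : q ∈ closure ({x : E 3 | 9 / 10 * v < x 2 ∧ x 2 < 11 / 10 * v} ∩ D.Ω) :=
    hU.inter_closure ⟨⟨h1, h2⟩, hq⟩
  have hC : IsClosed {x : E 3 | |x 2 - D.y k| ≤ D.ρ k} :=
    isClosed_le (by fun_prop) continuous_const
  have h4 : closure ({x : E 3 | 9 / 10 * v < x 2 ∧ x 2 < 11 / 10 * v} ∩ D.Ω) ⊆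
      {x : E 3 | |x 2 - D.y k| ≤ D.ρ k} := by
    refine closure_minimal ?_ hC
    rintro x ⟨⟨hx1, hx2⟩, hx3⟩
    obtain ⟨j, hj⟩ := mem_iUnion.1 hx3
    have := hk j (x 2) hx1 hx2 hj
    subst this
    have hj' : |x 2 - D.y j| < D.ρ j := hj
    exact hj'.le
  exact h4 h3

lemma interior_closure_N : interior (closure D.N) = D.Ω := by
  apply Subset.antisymm
  · intro p hp
    rw [mem_interior_iff_mem_nhds, Metric.mem_nhds_iff] at hp
    obtain ⟨δ, hδ, hball⟩ := hp
    have hcl : closure D.N ⊆ closure D.Ω := closure_mono D.N_subset_Ω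
    have hmem : ∀ t : ℝ, |t| < δ → p + t • (Pi.single 2 1 : E 3) ∈ closure D.Ω := by
      intro t ht
      refine hcl (hball ?_)
      rw [Metric.mem_ball, dist_eq_norm, add_sub_cancel_left, norm_smul, Real.norm_eq_abs]
      have : ‖(Pi.single 2 1 : E 3)‖ = 1 := by simp [Pi.norm_single]
      rw [this, mul_one]
      exact ht
    have hval : ∀ t : ℝ, (p + t • (Pi.single 2 1 : E 3)) 2 = p 2 + t := by intro t; simp
    rcases le_or_gt (p 2) 0 with hp2 | hp2
    · exfalso
      have h1 := hmem (-(δ / 2)) (by rw [abs_neg, abs_of_pos (by positivity)]; linarith)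
      have hC : IsClosed {x : E 3 | 0 ≤ x 2} := isClosed_le continuous_const (continuous_apply 2)
      have h2 : closure D.Ω ⊆ {x : E 3 | 0 ≤ x 2} :=
        closure_minimal (fun x hx => (D.Ω_pos hx).le) hC
      have h3 : 0 ≤ (p + (-(δ / 2)) • (Pi.single 2 1 : E 3)) 2 := h2 h1
      rw [hval] at h3
      linarith
    · obtain ⟨k, hk⟩ := D.one_strip hp2
      set t := min (δ / 2) (p 2 / 20) with ht
      have ht0 : 0 < t := lt_min (by positivity) (by positivity)
      have ht1 : t ≤ δ / 2 := min_le_left _ _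
      have ht2 : t ≤ p 2 / 20 := min_le_right _ _
      have h1 := D.closure_Ω_bound hk (hmem t (by rw [abs_of_pos ht0]; linarith))
        (by rw [hval]; linarith) (by rw [hval]; linarith)
      have h2 := D.closure_Ω_bound hk (hmem (-t) (by rw [abs_neg, abs_of_pos ht0]; linarith))
        (by rw [hval]; linarith) (by rw [hval]; linarith)
      rw [hval, abs_le] at h1 h2
      refine mem_iUnion.2 ⟨k, ?_⟩
      show |p 2 - D.y k| < D.ρ k
      rw [abs_lt]
      constructor <;> linarith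
  · exact interior_maximal D.Ω_subset_closure_N D.isOpen_Ω

lemma isImage_Ω {h : OpenPartialHomeomorph (E 3) (E 3)} (hh : IsCRDiffeo D.S h) :
    h.IsImage D.Ω D.Ω := by
  have := (D.isImage_N hh).closure.interior
  rwa [interior_closure_N] at this

lemma isImage_Z {h : OpenPartialHomeomorph (E 3) (E 3)} (hh : IsCRDiffeo D.S h) :
    h.IsImage D.Z D.Z := (D.isImage_Ω hh).diff (D.isImage_N hh)

/-- Local connectedness of `Ω` at a point. -/
def Tame (x : E 3) : Prop :=
  ∀ W₀ ∈ 𝓝 x, ∃ W, IsOpen W ∧ x ∈ W ∧ W ⊆ W₀ ∧ IsPreconnected (W ∩ D.Ω)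

lemma tame_of_ne {x : E 3} (hx : x 2 ≠ 0) : D.Tame x := by
  intro W₀ hW₀
  obtain ⟨δ, hδ, hball⟩ := Metric.mem_nhds_iff.1 hW₀
  have hx' : 0 < |x 2| := abs_pos.2 hx
  set t := min δ (|x 2| / 10) with ht
  have ht0 : 0 < t := lt_min hδ (by positivity)
  have ht1 : t ≤ δ := min_le_left _ _
  have ht2 : t ≤ |x 2| / 10 := min_le_right _ _
  refine ⟨Metric.ball x t, Metric.isOpen_ball, Metric.mem_ball_self ht0,
    (Metric.ball_subset_ball ht1).trans hball, ?_⟩
  have hw : ∀ w ∈ Metric.ball x t, |w 2 - x 2| < |x 2| / 10 := by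
    intro w hw
    have h1 : dist (w 2) (x 2) ≤ dist w x := dist_le_pi_dist w x 2
    rw [Real.dist_eq] at h1
    have h2 : dist w x < t := hw
    linarith
  rcases lt_or_gt_of_ne hx with hneg | hpos
  · have : Metric.ball x t ∩ D.Ω = ∅ := by
      ext w
      simp only [mem_inter_iff, mem_empty_iff_false, iff_false, not_and]
      intro h1 h2
      have h3 := hw w h1
      have h4 := D.Ω_pos h2
      rw [abs_of_neg hneg, abs_lt] at h3
      linarith
    rw [this]
    exact isPreconnected_empty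
  · obtain ⟨k, hk⟩ := D.one_strip hpos
    have : Metric.ball x t ∩ D.Ω = Metric.ball x t ∩
        ((LinearMap.proj 2 : E 3 →ₗ[ℝ] ℝ) ⁻¹' Metric.ball (D.y k) (D.ρ k)) := by
      ext w
      simp only [mem_inter_iff, and_congr_right_iff]
      intro h1
      have h3 := hw w h1
      rw [abs_of_pos hpos, abs_lt] at h3
      constructor
      · intro h2
        obtain ⟨j, hj⟩ := mem_iUnion.1 h2
        have := hk j (w 2) (by linarith) (by linarith) hj
        subst this
        show dist (w 2) (D.y j) < D.ρ j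
        rw [Real.dist_eq]
        exact hj
      · intro h2
        have h2' : dist (w 2) (D.y k) < D.ρ k := h2
        rw [Real.dist_eq] at h2'
        exact mem_iUnion.2 ⟨k, h2'⟩
    rw [this]
    exact ((convex_ball x t).inter ((convex_ball (D.y k) (D.ρ k)).linear_preimage
      (LinearMap.proj 2))).isPreconnected

lemma half_not_mem_strips (k : ℕ) {w : E 3} (hw : w ∈ D.Ω) : w 2 ≠ D.y k / 2 := by
  intro h
  obtain ⟨j, hj⟩ := mem_iUnion.1 hw
  have b := D.strip_bounds hj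
  rw [h] at b
  have hk := D.y_pos k
  have hj' := D.y_pos j
  rcases lt_trichotomy j k with h | h | h
  · have := D.y_lt h; linarith
  · subst h; linarith
  · have := D.y_lt h; linarith

/-- the centre point of a strip, above `x` -/
lemma above_mem_Ω {x : E 3} (hx : x 2 = 0) (k : ℕ) : x + D.y k • (Pi.single 2 1 : E 3) ∈ D.Ω := by
  refine mem_iUnion.2 ⟨k, ?_⟩
  show |(x + D.y k • (Pi.single 2 1 : E 3)) 2 - D.y k| < D.ρ k
  have : (x + D.y k • (Pi.single 2 1 : E 3)) 2 - D.y k = 0 := by simp [hx]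
  rw [this, abs_zero]
  exact D.ρ_pos k

lemma tendsto_above (x : E 3) :
    Tendsto (fun k => x + D.y k • (Pi.single 2 1 : E 3)) atTop (𝓝 x) := by
  have h1 : Tendsto (fun k => x + D.y k • (Pi.single 2 1 : E 3)) atTop
      (𝓝 (x + (0 : ℝ) • (Pi.single 2 1 : E 3))) :=
    tendsto_const_nhds.add (D.tendsto_y.smul_const _)
  simpa using h1

lemma not_tame {x : E 3} (hx : x 2 = 0) : ¬ D.Tame x := by
  intro h
  obtain ⟨W, hWo, hxW, -, hW⟩ := h univ univ_mem
  have h1 : ∀ᶠ k in atTop, x + D.y k • (Pi.single 2 1 : E 3) ∈ W :=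
    (D.tendsto_above x).eventually (hWo.mem_nhds hxW)
  obtain ⟨k, hk⟩ := eventually_atTop.1 h1
  have hk0 := hk k le_rfl
  have hk1 := hk (k + 1) (by omega)
  have hval : ∀ t : ℝ, (x + t • (Pi.single 2 1 : E 3)) 2 = t := by intro t; simp [hx]
  have := hW {p | p 2 < D.y k / 2} {p | D.y k / 2 < p 2}
    (isOpen_lt (continuous_apply 2) continuous_const)
    (isOpen_lt continuous_const (continuous_apply 2)) ?_ ?_ ?_
  · obtain ⟨p, -, h3, h4⟩ := this
    have h3' : p 2 < D.y k / 2 := h3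
    have h4' : D.y k / 2 < p 2 := h4
    linarith
  · rintro p ⟨-, hp⟩
    rcases lt_or_gt_of_ne (D.half_not_mem_strips k hp) with h | h
    · exact Or.inl h
    · exact Or.inr h
  · refine ⟨_, ⟨hk1, D.above_mem_Ω hx (k + 1)⟩, ?_⟩
    show (x + D.y (k + 1) • (Pi.single 2 1 : E 3)) 2 < D.y k / 2
    rw [hval]
    have := D.y_succ k
    have := D.y_pos k
    linarith
  · refine ⟨_, ⟨hk0, D.above_mem_Ω hx k⟩, ?_⟩
    show D.y k / 2 < (x + D.y k • (Pi.single 2 1 : E 3)) 2
    rw [hval]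
    have := D.y_pos k
    linarith

lemma tame_iff {x : E 3} : D.Tame x ↔ x 2 ≠ 0 :=
  ⟨fun h h0 => D.not_tame h0 h, D.tame_of_ne⟩

lemma Tame.map {h : OpenPartialHomeomorph (E 3) (E 3)} (hh : IsCRDiffeo D.S h) {x : E 3}
    (hx : x ∈ h.source) (ht : D.Tame x) : D.Tame (h x) := by
  intro W₀ hW₀
  have h1 : h.source ∩ h ⁻¹' W₀ ∈ 𝓝 x :=
    inter_mem (h.open_source.mem_nhds hx) (h.continuousAt hx hW₀)
  obtain ⟨W, hWo, hxW, hsub, hW⟩ := ht _ h1
  have hWs : W ⊆ h.source := fun w hw => (hsub hw).1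
  refine ⟨h '' W, h.isOpen_image_of_subset_source hWo hWs, mem_image_of_mem _ hxW, ?_, ?_⟩
  · rintro _ ⟨w, hw, rfl⟩
    exact (hsub hw).2
  · have : h '' W ∩ D.Ω = h '' (W ∩ D.Ω) := by
      ext p
      constructor
      · rintro ⟨⟨w, hw, rfl⟩, hp⟩
        exact ⟨w, ⟨hw, (D.isImage_Ω hh (hWs hw)).1 hp⟩, rfl⟩
      · rintro ⟨w, ⟨hw, hw'⟩, rfl⟩
        exact ⟨⟨w, hw, rfl⟩, (D.isImage_Ω hh (hWs hw)).2 hw'⟩
    rw [this]
    exact hW.image h (h.continuousOn.mono fun w hw => hWs hw.1)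

/-- The plane `{x 2 = 0}` is invariant. -/
lemma plane_iff {h : OpenPartialHomeomorph (E 3) (E 3)} (hh : IsCRDiffeo D.S h) {x : E 3}
    (hx : x ∈ h.source) : h x 2 = 0 ↔ x 2 = 0 := by
  constructor
  · intro h1
    by_contra h2
    exact D.not_tame h1 (Tame.map D hh hx (D.tame_of_ne h2))
  · intro h1
    by_contra h2
    have h3 := Tame.map D hh.symm (h.map_source hx) (D.tame_of_ne h2)
    rw [h.left_inv hx] at h3
    exact D.not_tame h1 h3

end Data

end Pool.Agent.Lib.MP_430a41_an
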